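import Pool.Agent.Q256.MP.Stm

/-!
# Project MP (helper256), job GROW: the height of the image
-/

set_option autoImplicit false

open Height NumberField

namespace Pool.Agent.Q193.MP

open Pool.Agent.Q256.MP Pool.Agent.W276.GE

theorem span : S_span :=
  Pool.Agent.W405.GE.span_of_mac (Pool.Agent.W216.GE.mac Pool.Agent.W85.GE.perm
    Pool.Agent.W333.GELin.lin Pool.Agent.W366.GE.hyp)

theorem card_box (n t T : ℕ) : (box n t T).card = (2 * T + 1) ^ Fintype.card (E n t) := by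
  unfold box
  rw [Fintype.card_piFinset, Finset.prod_const, Finset.card_univ, Int.card_Icc]
  congr 1
  omega

theorem card_E_pos (n s : ℕ) : 0 < Fintype.card (E (n + 1) s) := by
  rw [Fintype.card_pos_iff]
  refine ⟨⟨fun i => if i = 0 then s else 0, ?_⟩⟩
  rw [Finset.Nat.mem_antidiagonalTuple]
  simp

theorem grow (h : S_lowg) : S_grow := by
  intro N D d hd
  obtain ⟨t, ht⟩ : ∃ t, t = (N + 1) * (d - 1) + 1 := ⟨_, rfl⟩
  have hdt : d ≤ t := by
    rw [ht]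
    have : d - 1 ≤ (N + 1) * (d - 1) := Nat.le_mul_of_pos_left _ (by omega)
    omega
  obtain ⟨m, hm⟩ : ∃ m, m = (N + 1) * Fintype.card (E (N + 1) (t - d)) := ⟨_, rfl⟩
  have hm1 : 1 ≤ m := by
    rw [hm]
    exact Nat.mul_pos (by omega) (card_E_pos N _)
  obtain ⟨c, hc⟩ : ∃ c, c = Fintype.card (E (N + 1) t) := ⟨_, rfl⟩
  have hmr : (1 : ℝ) ≤ m := by exact_mod_cast hm1
  refine ⟨(3 * m) ^ D * (2 * (m + 1) + 1) ^ (c * D), c * D, by positivity, ?_⟩
  intro H hH F hF hz K _ _ hK P hP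
  have hHr : (1 : ℝ) ≤ H := by exact_mod_cast hH
  have hF' : ∀ i, F i ∈ box (N + 1) d H := by
    intro i
    exact (Fintype.mem_piFinset.1 hF) i
  have h1 := h (N + 1) d t H (by omega) hd hdt hH F hF'
    (span (N + 1) d (by omega) hd F hz t (by rw [ht])) K P hP
  rw [← hm] at h1
  obtain ⟨e, he⟩ : ∃ e, e = Module.finrank ℚ K := ⟨_, rfl⟩
  rw [← he] at h1 hK
  have hnv : (nv t (H + m * H) P : ℝ) ≤ ((2 * (m + 1) + 1) * H) ^ c := by
    have e1 : nv t (H + m * H) P ≤ (box (N + 1) t (H + m * H)).card := by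
      unfold nv
      refine (Set.ncard_image_le (Finset.finite_toSet _)).trans ?_
      rw [Set.ncard_coe_finset]
    rw [card_box, ← hc] at e1
    have e2 : ((2 * (H + m * H) + 1 : ℕ) : ℝ) ≤ (2 * (m + 1) + 1) * H := by
      push_cast
      nlinarith
    calc (nv t (H + m * H) P : ℝ) ≤ (((2 * (H + m * H) + 1) ^ c : ℕ) : ℝ) := by exact_mod_cast e1
      _ = ((2 * (H + m * H) + 1 : ℕ) : ℝ) ^ c := by push_cast; ring
      _ ≤ _ := pow_le_pow_left₀ (by positivity) e2 c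
  have hbase : (1 : ℝ) ≤ ((2 * (m + 1) + 1) * H) ^ c := by
    apply one_le_pow₀
    nlinarith
  have hX0 : 0 ≤ mulHeight P ^ d := pow_nonneg (mulHeight_pos P).le d
  have hY0 : 0 ≤ mulHeight (fm F K P) := (mulHeight_pos _).le
  have hnve : (nv t (H + m * H) P : ℝ) ^ e ≤ (((2 * (m + 1) + 1) * H) ^ c) ^ D :=
    (pow_le_pow_left₀ (by positivity) hnv e).trans (pow_le_pow_right₀ hbase hK)
  have hlow : 1 / (3 * (m : ℝ)) ^ D ≤ ((H : ℝ) / (3 * m)) ^ e := by
    rw [div_pow]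
    have e1 : (3 * (m : ℝ)) ^ e ≤ (3 * (m : ℝ)) ^ D := pow_le_pow_right₀ (by linarith) hK
    have e2 : (1 : ℝ) ≤ (H : ℝ) ^ e := one_le_pow₀ hHr
    gcongr
  have h2 : 1 / (3 * (m : ℝ)) ^ D * mulHeight P ^ d ≤
      (((2 * (m + 1) + 1) * H) ^ c) ^ D * mulHeight (fm F K P) := by
    have h1' : ((H : ℝ) / (3 * m)) ^ e * mulHeight P ^ d ≤
        (nv t (H + m * H) P : ℝ) ^ e * mulHeight (fm F K P) := by
      have e3 : (((N + 1 : ℕ) : ℝ) * Fintype.card (E (N + 1) (t - d))) = (m : ℝ) := by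
        rw [hm]
        push_cast
        ring
      rw [e3] at h1
      exact h1
    calc _ ≤ ((H : ℝ) / (3 * m)) ^ e * mulHeight P ^ d := mul_le_mul_of_nonneg_right hlow hX0
      _ ≤ _ := h1'
      _ ≤ _ := mul_le_mul_of_nonneg_right hnve hY0
  have h3 : mulHeight P ^ d ≤ (3 * (m : ℝ)) ^ D *
      ((((2 * (m + 1) + 1) * H) ^ c) ^ D * mulHeight (fm F K P)) := by
    have e1 : (0 : ℝ) < (3 * (m : ℝ)) ^ D := by positivity
    calc mulHeight P ^ d = (3 * (m : ℝ)) ^ D * (1 / (3 * (m : ℝ)) ^ D * mulHeight P ^ d) := by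
          field_simp
      _ ≤ _ := mul_le_mul_of_nonneg_left h2 e1.le
  refine h3.trans (le_of_eq ?_)
  have e1 : (((2 * ((m : ℝ) + 1) + 1) * H) ^ c) ^ D =
      (2 * ((m : ℝ) + 1) + 1) ^ (c * D) * (H : ℝ) ^ (c * D) := by
    rw [← pow_mul, mul_pow]
  rw [e1]
  ring

end Pool.Agent.Q193.MP
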