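import Pool.Agent.Q256.MP.Stm

/-!
# Project MP (helper256), job ITER: growth of a sequence of heights
-/

set_option autoImplicit false

namespace Pool.Agent.Q193.MP

open Pool.Agent.Q256.MP

theorem iter : S_iter := by
  intro d a C η hd hC hη
  have hlog2 : 0 < Real.log 2 := Real.log_pos (by norm_num)
  have hdr : (2 : ℝ) ≤ d := by exact_mod_cast hd
  obtain ⟨b, hb⟩ : ∃ b : ℝ, b = max (Real.log C) 0 / Real.log 2 + a := ⟨_, rfl⟩
  have hb0 : 0 ≤ b := by
    rw [hb]
    have : 0 ≤ max (Real.log C) 0 := le_max_right _ _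
    positivity
  obtain ⟨n₁, hn₁⟩ : ∃ n₁ : ℕ, 2 * b / η ≤ (2 : ℝ) ^ n₁ := by
    obtain ⟨n, hn⟩ := pow_unbounded_of_one_lt (2 * b / η) (one_lt_two (α := ℝ))
    exact ⟨n, hn.le⟩
  have hn₁' : 2 * b ≤ 2 ^ n₁ * η := by rwa [div_le_iff₀ hη] at hn₁
  refine ⟨2 ^ n₁ * η / (2 * (d : ℝ) ^ n₁), by positivity, n₁, ?_⟩
  intro H hH X h1 h2 h3 h4
  have hH2 : (2 : ℝ) ≤ H := by exact_mod_cast hH
  have hH0 : (0 : ℝ) < H := by linarith
  obtain ⟨L, hL⟩ : ∃ L : ℝ, L = Real.log H := ⟨_, rfl⟩
  have hL2 : Real.log 2 ≤ L := by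
    rw [hL]
    exact Real.log_le_log (by norm_num) hH2
  have hL0 : 0 < L := by linarith
  have hX0 : ∀ n, 0 < X n := fun n => by linarith [h1 n]
  have hbL : Real.log C + a * L ≤ b * L := by
    have e1 : Real.log C ≤ max (Real.log C) 0 / Real.log 2 * L := by
      calc Real.log C ≤ max (Real.log C) 0 := le_max_left _ _
        _ = max (Real.log C) 0 / Real.log 2 * Real.log 2 := by field_simp
        _ ≤ max (Real.log C) 0 / Real.log 2 * L := by
          apply mul_le_mul_of_nonneg_left hL2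
          have : 0 ≤ max (Real.log C) 0 := le_max_right _ _
          positivity
    rw [hb]
    linarith
  have hx2 : ∀ n, 2 * Real.log (X n) ≤ Real.log (X (n + 1)) := by
    intro n
    have e1 := Real.log_le_log (pow_pos (hX0 n) 2) (h2 n)
    rw [Real.log_pow] at e1
    exact_mod_cast e1
  have hxd : ∀ n, d * Real.log (X n) - b * L ≤ Real.log (X (n + 1)) := by
    intro n
    have e1 := Real.log_le_log (pow_pos (hX0 n) d) (h3 n)
    rw [Real.log_pow, Real.log_mul (by positivity) (hX0 _).ne', Real.log_mul hC.ne' (by positivity),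
      Real.log_pow, ← hL] at e1
    linarith
  have hx0 : η * L ≤ Real.log (X 0) := by
    have e1 := Real.log_le_log (Real.rpow_pos_of_pos hH0 _) h4
    rw [Real.log_rpow hH0, ← hL] at e1
    exact e1
  have hlow : ∀ n, (2 : ℝ) ^ n * (η * L) ≤ Real.log (X n) := by
    intro n
    induction n with
    | zero => simpa using hx0
    | succ n ih =>
      have := hx2 n
      rw [pow_succ]
      linarith
  have key : ∀ k : ℕ, (d : ℝ) ^ k * (2 ^ n₁ * η / 2 * L) ≤
      Real.log (X (n₁ + k)) - b * L / (d - 1) := by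
    intro k
    have hd1 : (1 : ℝ) ≤ (d : ℝ) - 1 := by linarith
    induction k with
    | zero =>
      have e1 := hlow n₁
      have e2 : b * L / (d - 1) ≤ b * L := div_le_self (by positivity) hd1
      have e3 : 2 * b * L ≤ 2 ^ n₁ * η * L := mul_le_mul_of_nonneg_right hn₁' hL0.le
      rw [pow_zero, one_mul, Nat.add_zero]
      linarith
    | succ k ih =>
      have e1 := hxd (n₁ + k)
      have e2 : b * L + b * L / (d - 1) = d * (b * L / (d - 1)) := by
        field_simp
        ring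
      have e3 := mul_le_mul_of_nonneg_left ih (by linarith : (0 : ℝ) ≤ d)
      rw [pow_succ]
      have e4 : n₁ + (k + 1) = n₁ + k + 1 := by ring
      rw [e4]
      linarith
  intro n hn
  obtain ⟨k, rfl⟩ := Nat.exists_eq_add_of_le hn
  have e1 := key k
  have e2 : 0 ≤ b * L / (d - 1) := div_nonneg (by positivity) (by linarith)
  have e3 : 2 ^ n₁ * η / (2 * (d : ℝ) ^ n₁) * (d : ℝ) ^ (n₁ + k) * L =
      (d : ℝ) ^ k * (2 ^ n₁ * η / 2 * L) := by
    rw [pow_add]
    field_simp
  rw [← Real.exp_log (hX0 (n₁ + k)), Real.rpow_def_of_pos hH0, Real.exp_le_exp, ← hL]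
  linarith

end Pool.Agent.Q193.MP
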