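import Mathlib

set_option autoImplicit false

open Set Filter Topology MeasureTheory

namespace Q193.Torse

/-- A straight letter T (bar and leg) inside the level set `{g = c} ∩ D`. -/
structure TShape (D : Set (ℝ × ℝ)) (g : ℝ × ℝ → ℝ × ℝ) (c : ℝ × ℝ) (o v w : ℝ × ℝ) : Prop where
  indep : v.1 * w.2 - v.2 * w.1 ≠ 0
  bar : ∀ t ∈ Icc (-1 : ℝ) 1, o + t • v ∈ D ∧ g (o + t • v) = c
  leg : ∀ t ∈ Icc (0 : ℝ) 1, o + t • w ∈ D ∧ g (o + t • w) = c

/-- Two T's that are close to each other meet. -/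
theorem T_meet {D : Set (ℝ × ℝ)} {g : ℝ × ℝ → ℝ × ℝ} {c c' o v w o' v' w' : ℝ × ℝ}
    (h : TShape D g c o v w) (h' : TShape D g c' o' v' w')
    {α β a b e d : ℝ} (ho : o' = o + α • v + β • w) (hv : v' = (1 + a) • v + b • w)
    (hw : w' = e • v + (1 + d) • w)
    (hα : |α| < 1/4) (hβ : |β| < 1/4) (ha : |a| < 1/4) (hb : |b| < 1/4) (he : |e| < 1/4)
    (hd : |d| < 1/4) : c' = c := by
  rw [abs_lt] at hα hβ ha hb he hd
  rcases le_or_gt β 0 with hb0 | hb0
  · -- the leg of T' crosses the bar of T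
    set t : ℝ := -β / (1 + d) with ht
    have hd1 : 0 < 1 + d := by linarith
    have ht0 : 0 ≤ t := div_nonneg (by linarith) hd1.le
    have ht1 : t ≤ 1 := by rw [ht, div_le_one hd1]; linarith
    have hte : t * (1 + d) = -β := by rw [ht]; field_simp
    have hx1 : α + t * e ≤ 1 := by nlinarith
    have hx2 : -1 ≤ α + t * e := by nlinarith
    have e1 := (h.bar (α + t * e) ⟨hx2, hx1⟩).2
    have e2 := (h'.leg t ⟨ht0, ht1⟩).2
    have : o' + t • w' = o + (α + t * e) • v := by
      rw [ho, hw]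
      ext
      · simp only [Prod.fst_add, Prod.smul_fst, smul_eq_mul]
        linear_combination w.1 * hte
      · simp only [Prod.snd_add, Prod.smul_snd, smul_eq_mul]
        linear_combination w.2 * hte
    rw [this] at e2
    rw [← e1, ← e2]
  · have ha1 : 0 < 1 + a := by linarith
    set s : ℝ := -α / (1 + a) with hs
    have hse : s * (1 + a) = -α := by rw [hs]; field_simp
    have hs1 : s ≤ 1/2 := by rw [hs, div_le_iff₀ ha1]; linarith
    have hs2 : -(1/2) ≤ s := by rw [hs, le_div_iff₀ ha1]; linarith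
    rcases le_or_gt 0 (β + s * b) with hy | hy
    · -- the bar of T' crosses the leg of T
      have hy1 : β + s * b ≤ 1 := by nlinarith
      have e1 := (h.leg (β + s * b) ⟨hy, hy1⟩).2
      have e2 := (h'.bar s ⟨by linarith, by linarith⟩).2
      have : o' + s • v' = o + (β + s * b) • w := by
        rw [ho, hv]
        ext
        · simp only [Prod.fst_add, Prod.smul_fst, smul_eq_mul]
          linear_combination v.1 * hse
        · simp only [Prod.snd_add, Prod.smul_snd, smul_eq_mul]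
          linear_combination v.2 * hse
      rw [this] at e2
      rw [← e1, ← e2]
    · -- the bar of T' crosses the bar of T
      have hbne : b ≠ 0 := by
        rintro rfl
        linarith
      set r : ℝ := -β / b with hr
      have hre : r * b = -β := by rw [hr]; field_simp
      -- r lies between 0 and s
      have hrs : |r| ≤ |s| := by
        have h1 : |r| * |b| = β := by rw [← abs_mul, hre, abs_neg, abs_of_pos hb0]
        have h2 : β < |s| * |b| := by
          rw [← abs_mul]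
          have := neg_abs_le (s * b)
          linarith
        have h3 : 0 < |b| := abs_pos.2 hbne
        have h4 : |r| * |b| < |s| * |b| := by rw [h1]; exact h2
        exact (lt_of_mul_lt_mul_right h4 h3.le).le
      have hsabs : |s| ≤ 1/2 := abs_le.2 ⟨hs2, hs1⟩
      have hr1 : |r| ≤ 1/2 := hrs.trans hsabs
      rw [abs_le] at hr1
      have hx1 : α + r * (1 + a) ≤ 1 := by nlinarith
      have hx2 : -1 ≤ α + r * (1 + a) := by nlinarith
      have e1 := (h.bar (α + r * (1 + a)) ⟨hx2, hx1⟩).2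
      have e2 := (h'.bar r ⟨by linarith, by linarith⟩).2
      have : o' + r • v' = o + (α + r * (1 + a)) • v := by
        rw [ho, hv]
        ext
        · simp only [Prod.fst_add, Prod.smul_fst, smul_eq_mul]
          linear_combination w.1 * hre
        · simp only [Prod.snd_add, Prod.smul_snd, smul_eq_mul]
          linear_combination w.2 * hre
      rw [this] at e2
      rw [← e1, ← e2]

/-- the values whose level set contains a T -/
def Bad (D : Set (ℝ × ℝ)) (g : ℝ × ℝ → ℝ × ℝ) : Set (ℝ × ℝ) :=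
  {c | ∃ o v w, TShape D g c o v w}

theorem bad_countable (D : Set (ℝ × ℝ)) (g : ℝ × ℝ → ℝ × ℝ) : (Bad D g).Countable := by
  classical
  choose! o v w hT using (fun c (hc : c ∈ Bad D g) => hc)
  set τ : ℝ × ℝ → (ℝ × ℝ) × (ℝ × ℝ) × (ℝ × ℝ) := fun c => (o c, v c, w c) with hτ
  -- coordinate functions
  set cr : ℝ × ℝ → ℝ × ℝ → ℝ := fun x y => x.1 * y.2 - x.2 * y.1 with hcr
  set U : ℝ × ℝ → Set ((ℝ × ℝ) × (ℝ × ℝ) × (ℝ × ℝ)) := fun c =>
    {T | |cr (T.1 - o c) (w c) / cr (v c) (w c)| < 1/4 ∧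
         |cr (v c) (T.1 - o c) / cr (v c) (w c)| < 1/4 ∧
         |cr (T.2.1 - v c) (w c) / cr (v c) (w c)| < 1/4 ∧
         |cr (v c) (T.2.1 - v c) / cr (v c) (w c)| < 1/4 ∧
         |cr (T.2.2 - w c) (w c) / cr (v c) (w c)| < 1/4 ∧
         |cr (v c) (T.2.2 - w c) / cr (v c) (w c)| < 1/4} with hU
  have hUo : ∀ c, IsOpen (U c) := by
    intro c
    have hk : ∀ φ : (ℝ × ℝ) × (ℝ × ℝ) × (ℝ × ℝ) → ℝ, Continuous φ →
        IsOpen {T | |φ T| < 1/4} := fun φ hφ => isOpen_lt hφ.abs continuous_const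
    have c1 : Continuous fun T : (ℝ × ℝ) × (ℝ × ℝ) × (ℝ × ℝ) =>
        cr (T.1 - o c) (w c) / cr (v c) (w c) := by simp only [hcr]; fun_prop
    have c2 : Continuous fun T : (ℝ × ℝ) × (ℝ × ℝ) × (ℝ × ℝ) =>
        cr (v c) (T.1 - o c) / cr (v c) (w c) := by simp only [hcr]; fun_prop
    have c3 : Continuous fun T : (ℝ × ℝ) × (ℝ × ℝ) × (ℝ × ℝ) =>
        cr (T.2.1 - v c) (w c) / cr (v c) (w c) := by simp only [hcr]; fun_prop
    have c4 : Continuous fun T : (ℝ × ℝ) × (ℝ × ℝ) × (ℝ × ℝ) =>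
        cr (v c) (T.2.1 - v c) / cr (v c) (w c) := by simp only [hcr]; fun_prop
    have c5 : Continuous fun T : (ℝ × ℝ) × (ℝ × ℝ) × (ℝ × ℝ) =>
        cr (T.2.2 - w c) (w c) / cr (v c) (w c) := by simp only [hcr]; fun_prop
    have c6 : Continuous fun T : (ℝ × ℝ) × (ℝ × ℝ) × (ℝ × ℝ) =>
        cr (v c) (T.2.2 - w c) / cr (v c) (w c) := by simp only [hcr]; fun_prop
    exact (hk _ c1).and ((hk _ c2).and ((hk _ c3).and ((hk _ c4).and ((hk _ c5).and (hk _ c6)))))
  have hUm : ∀ c, τ c ∈ U c := by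
    intro c
    simp only [hU, hτ, hcr, mem_ofPred_eq, sub_self, Prod.fst_zero, Prod.snd_zero]
    norm_num
  have hdec : ∀ c ∈ Bad D g, ∀ x : ℝ × ℝ,
      x = (cr x (w c) / cr (v c) (w c)) • v c + (cr (v c) x / cr (v c) (w c)) • w c := by
    intro c hc x
    have hne : cr (v c) (w c) ≠ 0 := (hT c hc).indep
    ext
    · simp only [Prod.fst_add, Prod.smul_fst, smul_eq_mul]
      rw [div_mul_eq_mul_div, div_mul_eq_mul_div, ← add_div, eq_div_iff hne]
      simp only [hcr]; ring
    · simp only [Prod.snd_add, Prod.smul_snd, smul_eq_mul]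
      rw [div_mul_eq_mul_div, div_mul_eq_mul_div, ← add_div, eq_div_iff hne]
      simp only [hcr]; ring
  have hsep : ∀ c ∈ Bad D g, ∀ c' ∈ Bad D g, τ c' ∈ U c → c' = c := by
    intro c hc c' hc' hm
    obtain ⟨h1, h2, h3, h4, h5, h6⟩ := hm
    refine T_meet (hT c hc) (hT c' hc') (α := _) (β := _) (a := _) (b := _) (e := _) (d := _)
      ?_ ?_ ?_ h1 h2 h3 h4 h5 h6
    · have := hdec c hc (o c' - o c)
      rw [add_assoc, ← this]; abel
    · have := hdec c hc (v c' - v c)
      rw [add_smul, one_smul, add_assoc, ← this]; abel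
    · have := hdec c hc (w c' - w c)
      rw [add_smul, one_smul, add_left_comm, ← this]; abel
  -- countability
  let B := TopologicalSpace.countableBasis ((ℝ × ℝ) × (ℝ × ℝ) × (ℝ × ℝ))
  have hB : ∀ c, ∃ b ∈ B, τ c ∈ b ∧ b ⊆ U c := fun c =>
    (TopologicalSpace.isBasis_countableBasis _).exists_subset_of_mem_open (hUm c) (hUo c)
  choose b hbB hbm hbU using hB
  have hinj : InjOn b (Bad D g) := by
    intro c hc c' hc' he
    have : τ c' ∈ U c := hbU c (by rw [he]; exact hbm c')
    exact (hsep c hc c' hc' this).symm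
  exact Set.countable_of_injective_of_countable_image hinj
    ((TopologicalSpace.countable_countableBasis _).mono (by rintro _ ⟨c, -, rfl⟩; exact hbB c))

end Q193.Torse
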