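import Pool.Agent.Q193.Torse1

set_option autoImplicit false

open Set Filter Topology MeasureTheory

namespace Q193.Torse

/-- the torse condition for the gradient field `g` on the planar domain `D` -/
def Tor (D : Set (ℝ × ℝ)) (g : ℝ × ℝ → ℝ × ℝ) : Prop :=
  ∀ x ∈ D, ∃ d : ℝ × ℝ, d ≠ 0 ∧ ∀ t ∈ Ioo (-1 : ℝ) 1, x + t • d ∈ D ∧ g (x + t • d) = g x

theorem parallel_of_cross {d e : ℝ × ℝ} (hd : d ≠ 0) (h : e.1 * d.2 - e.2 * d.1 = 0) :
    ∃ κ : ℝ, e = κ • d := by
  by_cases h1 : d.1 = 0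
  · have h2 : d.2 ≠ 0 := fun h2 => hd (Prod.ext h1 h2)
    refine ⟨e.2 / d.2, ?_⟩
    have he1 : e.1 = 0 := by
      rw [h1] at h
      have : e.1 * d.2 = 0 := by linarith
      exact (mul_eq_zero.1 this).resolve_right h2
    ext
    · simp [h1, he1]
    · simp [h2]
  · refine ⟨e.1 / d.1, ?_⟩
    ext
    · simp [h1]
    · simp only [Prod.smul_snd, smul_eq_mul]
      field_simp
      linarith

theorem chord {D : Set (ℝ × ℝ)} {g : ℝ × ℝ → ℝ × ℝ} (hDc : Convex ℝ D)
    (hg : ContinuousOn g D) (hT : Tor D g) {x d : ℝ × ℝ} (hx : x ∈ D) (hgood : g x ∉ Bad D g)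
    (hd : d ≠ 0) (hloc : ∀ t ∈ Ioo (-1 : ℝ) 1, x + t • d ∈ D ∧ g (x + t • d) = g x)
    {b : ℝ} (hb0 : 0 ≤ b) (hb : x + b • d ∈ D) : g (x + b • d) = g x := by
  have hmem : ∀ t ∈ Icc (0 : ℝ) b, x + t • d ∈ D := by
    intro t ht
    rcases eq_or_lt_of_le hb0 with h | h
    · have : t = 0 := le_antisymm (by rw [h]; exact ht.2) ht.1
      simpa [this] using hx
    · have := hDc hx hb (a := 1 - t / b) (b := t / b)
        (by rw [sub_nonneg, div_le_one h]; exact ht.2) (div_nonneg ht.1 h.le) (by ring)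
      have e : (1 - t / b) • x + (t / b) • (x + b • d) = x + t • d := by
        rw [smul_add, smul_smul, div_mul_cancel₀ _ h.ne', ← add_assoc, ← add_smul]
        simp
      rwa [e] at this
  set s : Set ℝ := {t | ∀ r ∈ Icc (0 : ℝ) t, g (x + r • d) = g x} with hs
  have hcont : ContinuousOn (fun t : ℝ => g (x + t • d)) (Icc 0 b) :=
    hg.comp (by fun_prop) hmem
  have hclosed : IsClosed (s ∩ Icc 0 b) := by
    have hZ : IsClosed (Icc (0 : ℝ) b ∩ (fun t : ℝ => g (x + t • d)) ⁻¹' {g x}) :=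
      hcont.preimage_isClosed_of_isClosed isClosed_Icc isClosed_singleton
    rw [← isSeqClosed_iff_isClosed]
    intro ts t hts htt
    have htI : t ∈ Icc (0 : ℝ) b := isClosed_Icc.mem_of_tendsto htt
      (Eventually.of_forall fun n => (hts n).2)
    refine ⟨?_, htI⟩
    intro r hr
    rcases eq_or_lt_of_le hr.2 with h | h
    · have : t ∈ Icc (0 : ℝ) b ∩ (fun t : ℝ => g (x + t • d)) ⁻¹' {g x} := by
        refine hZ.mem_of_tendsto htt (Eventually.of_forall fun n => ⟨(hts n).2, ?_⟩)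
        exact (hts n).1 (ts n) ⟨(hts n).2.1, le_rfl⟩
      rw [h]
      exact this.2
    · obtain ⟨n, hn⟩ := (htt.eventually (lt_mem_nhds h)).exists
      exact (hts n).1 r ⟨hr.1, hn.le⟩
  have h0 : (0 : ℝ) ∈ s := by
    intro r hr
    have : r = 0 := le_antisymm hr.2 hr.1
    simp [this]
  have hstep : ∀ t ∈ s ∩ Ico 0 b, ∀ y ∈ Ioi t, (s ∩ Ioc t y).Nonempty := by
    rintro t ⟨hts, ht0, htb⟩ y hy
    have hy' : t < y := hy
    -- enough: there is κ > 0 with g = c on [t, t+κ]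
    suffices h : ∃ κ : ℝ, 0 < κ ∧ ∀ r ∈ Icc t (t + κ), g (x + r • d) = g x by
      obtain ⟨κ, hκ, hκ'⟩ := h
      refine ⟨min (t + κ) y, ?_, lt_min (by linarith) hy', min_le_right _ _⟩
      intro r hr
      rcases le_total r t with h | h
      · exact hts r ⟨hr.1, h⟩
      · exact hκ' r ⟨h, hr.2.trans (min_le_left _ _)⟩
    rcases eq_or_lt_of_le ht0 with h | h
    · refine ⟨1/2, by norm_num, fun r hr => ?_⟩
      rw [← h] at hr
      exact (hloc r ⟨by linarith [hr.1], by linarith [hr.2]⟩).2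
    · have hzD : x + t • d ∈ D := hmem t ⟨ht0, htb.le⟩
      have hgz : g (x + t • d) = g x := hts t ⟨ht0, le_rfl⟩
      obtain ⟨e, he, hez⟩ := hT _ hzD
      have hcr : e.1 * d.2 - e.2 * d.1 = 0 := by
        by_contra hne
        apply hgood
        refine ⟨x + t • d, (1/2 : ℝ) • e, (-t) • d, ?_, ?_, ?_⟩
        · simp only [Prod.smul_fst, Prod.smul_snd, smul_eq_mul]
          have : 1/2 * e.1 * (-t * d.2) - 1/2 * e.2 * (-t * d.1)
            = (-t/2) * (e.1 * d.2 - e.2 * d.1) := by ring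
          rw [this]
          exact mul_ne_zero (by linarith [h.ne]) hne
        · intro r hr
          have := hez (r * (1/2)) ⟨by linarith [hr.1], by linarith [hr.2]⟩
          rw [smul_smul]
          exact ⟨this.1, this.2.trans hgz⟩
        · intro r hr
          have e1 : x + t • d + r • (-t) • d = x + (t - r * t) • d := by
            rw [smul_smul, add_assoc, ← add_smul]; congr 2; ring
          have h1 : 0 ≤ t - r * t := by nlinarith [hr.2]
          have h2 : t - r * t ≤ t := by nlinarith [hr.1]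
          rw [e1]
          exact ⟨hmem _ ⟨h1, h2.trans htb.le⟩, hts _ ⟨h1, h2⟩⟩
      obtain ⟨κ, hκ⟩ := parallel_of_cross hd hcr
      have hκ0 : κ ≠ 0 := by
        rintro rfl
        exact he (by rw [hκ, zero_smul])
      refine ⟨|κ| / 2, by positivity, fun r hr => ?_⟩
      have hr1 : |(r - t) / κ| ≤ 1/2 := by
        rw [abs_div, div_le_iff₀ (abs_pos.2 hκ0), abs_of_nonneg (by linarith [hr.1])]
        linarith [hr.2]
      rw [abs_le] at hr1
      have := (hez ((r - t) / κ) ⟨by linarith, by linarith⟩).2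
      rw [hκ, smul_smul, div_mul_cancel₀ _ hκ0, add_assoc, ← add_smul] at this
      rw [← hgz, ← this]
      congr 3
      ring
  have := hclosed.Icc_subset_of_forall_exists_gt h0 hstep (right_mem_Icc.2 hb0)
  exact this b ⟨hb0, le_rfl⟩

theorem chord' {D : Set (ℝ × ℝ)} {g : ℝ × ℝ → ℝ × ℝ} (hDc : Convex ℝ D)
    (hg : ContinuousOn g D) (hT : Tor D g) {x d : ℝ × ℝ} (hx : x ∈ D) (hgood : g x ∉ Bad D g)
    (hd : d ≠ 0) (hloc : ∀ t ∈ Ioo (-1 : ℝ) 1, x + t • d ∈ D ∧ g (x + t • d) = g x)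
    {b : ℝ} (hb : x + b • d ∈ D) : g (x + b • d) = g x := by
  rcases le_total 0 b with h | h
  · exact chord hDc hg hT hx hgood hd hloc h hb
  · have e : x + b • d = x + (-b) • (-d) := by simp
    rw [e] at hb ⊢
    refine chord hDc hg hT hx hgood (neg_ne_zero.2 hd) ?_ (by linarith) hb
    intro t ht
    have := hloc (-t) ⟨by linarith [ht.2], by linarith [ht.1]⟩
    simpa using this

/-- open square -/
def Sq (a b R : ℝ) : Set (ℝ × ℝ) := {z | |z.1 - a| < R ∧ |z.2 - b| < R}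

theorem Sq_open (a b R : ℝ) : IsOpen (Sq a b R) :=
  (isOpen_lt (by fun_prop) continuous_const).and (isOpen_lt (by fun_prop) continuous_const)

theorem Sq_convex (a b R : ℝ) : Convex ℝ (Sq a b R) := by
  have : Sq a b R = Ioo (a - R) (a + R) ×ˢ Ioo (b - R) (b + R) := by
    ext z
    simp only [Sq, mem_ofPred_eq, mem_prod, mem_Ioo, abs_lt]
    constructor
    · rintro ⟨⟨h1, h2⟩, h3, h4⟩
      exact ⟨⟨by linarith, by linarith⟩, by linarith, by linarith⟩
    · rintro ⟨⟨h1, h2⟩, h3, h4⟩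
      exact ⟨⟨by linarith, by linarith⟩, by linarith, by linarith⟩
  rw [this]
  exact (convex_Ioo _ _).prod (convex_Ioo _ _)

end Q193.Torse
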