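import Pool.Agent.Q193.Torse2

set_option autoImplicit false

open Set Filter Topology MeasureTheory

namespace Q193.Torse

/-- the linear form with coefficients `c` -/
noncomputable def lf (c : ℝ × ℝ) : ℝ × ℝ →L[ℝ] ℝ :=
  c.1 • ContinuousLinearMap.fst ℝ ℝ ℝ + c.2 • ContinuousLinearMap.snd ℝ ℝ ℝ

theorem lf_apply (c z : ℝ × ℝ) : lf c z = c.1 * z.1 + c.2 * z.2 := by
  simp [lf]

theorem lf_norm_le {c : ℝ × ℝ} {C : ℝ} (h : ‖c‖ ≤ C) : ‖lf c‖ ≤ 2 * C := by
  have hC : 0 ≤ C := (norm_nonneg _).trans h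
  refine ContinuousLinearMap.opNorm_le_bound _ (by linarith) fun z => ?_
  rw [lf_apply]
  have h1 : |c.1| ≤ C := (norm_fst_le c).trans h
  have h2 : |c.2| ≤ C := (norm_snd_le c).trans h
  have h3 : |z.1| ≤ ‖z‖ := norm_fst_le z
  have h4 : |z.2| ≤ ‖z‖ := norm_snd_le z
  have hz := norm_nonneg z
  calc ‖c.1 * z.1 + c.2 * z.2‖ ≤ |c.1 * z.1| + |c.2 * z.2| := abs_add_le _ _
    _ = |c.1| * |z.1| + |c.2| * |z.2| := by rw [abs_mul, abs_mul]
    _ ≤ C * ‖z‖ + C * ‖z‖ := by gcongr
    _ = 2 * C * ‖z‖ := by ring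

theorem V_lemma {u : ℝ × ℝ → ℝ} {g : ℝ × ℝ → ℝ × ℝ} {T : Set ℝ} {m : ℝ → ℝ} {a b R : ℝ}
    (hR : 0 < R) (hu : ∀ z ∈ Sq a b R, HasFDerivAt u (lf (g z)) z)
    (hg : ContinuousOn g (Sq a b R)) (hT : ∀ t ∈ T, |t - b| ≤ R / 2)
    (hm : ∀ t ∈ T, |m t| ≤ 1)
    (hch : ∀ t ∈ T, ∀ s : ℝ, |s| ≤ R / 4 → g (a + s, t + m t * s) = g (a, t))
    (hcr : ∀ t ∈ T, ∀ t' ∈ T, ∀ s : ℝ, |s| < R / 4 → t + m t * s = t' + m t' * s → m t = m t') :
    volume ((fun t : ℝ => g (a, t)) '' T) = 0 := by
  set ρ : ℝ := R / 4 with hρ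
  have hρ0 : 0 < ρ := by positivity
  -- the compact box
  set K : Set (ℝ × ℝ) := Icc (a - ρ) (a + ρ) ×ˢ Icc (b - 3 * ρ) (b + 3 * ρ) with hK
  have hKc : IsCompact K := isCompact_Icc.prod isCompact_Icc
  have hKconv : Convex ℝ K := (convex_Icc _ _).prod (convex_Icc _ _)
  have hKS : K ⊆ Sq a b R := by
    rintro z ⟨⟨h1, h2⟩, h3, h4⟩
    refine ⟨abs_lt.2 ⟨by linarith, by linarith⟩, abs_lt.2 ⟨by linarith, by linarith⟩⟩
  have hKm : ∀ s y : ℝ, |s| ≤ ρ → |y - b| ≤ 3 * ρ → (a + s, y) ∈ K := by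
    intro s y h1 h2
    rw [abs_le] at h1 h2
    exact ⟨⟨by simp only; linarith, by simp only; linarith⟩,
      ⟨by simp only; linarith, by simp only; linarith⟩⟩
  obtain ⟨C, hC⟩ := hKc.exists_bound_of_continuousOn (hg.mono hKS)
  have hC0 : 0 ≤ C := (norm_nonneg _).trans (hC (a + 0, b) (hKm 0 b (by simp [hρ0.le])
    (by simp [hρ0.le])))
  have hlip : ∀ x ∈ K, ∀ y ∈ K, |u y - u x| ≤ 2 * C * ‖y - x‖ := by
    intro x hx y hy
    have := hKconv.norm_image_sub_le_of_norm_hasFDerivWithin_le (f := u)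
      (f' := fun z => lf (g z)) (C := 2 * C) (fun z hz => (hu z (hKS hz)).hasFDerivWithinAt)
      (fun z hz => lf_norm_le (hC z hz)) hx hy
    exact this
  -- slopes are Lipschitz
  have hmlip : ∀ t ∈ T, ∀ t' ∈ T, |m t - m t'| * ρ ≤ |t - t'| := by
    intro t ht t' ht'
    by_contra hlt
    push Not at hlt
    have hne : m t - m t' ≠ 0 := by
      intro h0
      rw [h0, abs_zero, zero_mul] at hlt
      exact absurd hlt (not_lt.2 (abs_nonneg _))
    set s : ℝ := (t' - t) / (m t - m t') with hs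
    have hs1 : |s| < ρ := by
      rw [hs, abs_div, div_lt_iff₀ (abs_pos.2 hne), abs_sub_comm, mul_comm]
      exact hlt
    have hs2 : t + m t * s = t' + m t' * s := by
      have : (m t - m t') * s = t' - t := by rw [hs]; field_simp
      linarith
    exact hne (sub_eq_zero.2 (hcr t ht t' ht' s hs1 hs2))
  -- points of the chords lie in K
  have hptK : ∀ t ∈ T, ∀ s : ℝ, |s| ≤ ρ → (a + s, t + m t * s) ∈ K := by
    intro t ht s hs
    refine hKm s _ hs ?_
    have h1 := hT t ht
    have h2 : |m t * s| ≤ ρ := by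
      rw [abs_mul]
      calc |m t| * |s| ≤ 1 * ρ := mul_le_mul (hm t ht) hs (abs_nonneg _) zero_le_one
        _ = ρ := one_mul _
    calc |t + m t * s - b| = |(t - b) + m t * s| := by ring_nf
      _ ≤ |t - b| + |m t * s| := abs_add_le _ _
      _ ≤ 3 * ρ := by linarith
  -- the derivative along the chords
  set B : ℝ → ℝ := fun t => (g (a, t)).1 + m t * (g (a, t)).2 with hB
  have hBeq : ∀ t ∈ T, u (a + ρ, t + m t * ρ) - u (a, t) = ρ * B t := by
    intro t ht
    have hder : ∀ s ∈ Icc (0 : ℝ) ρ,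
        HasDerivAt (fun s : ℝ => u (a + s, t + m t * s) - s * B t) 0 s := by
      intro s hs
      have hs' : |s| ≤ ρ := by rw [abs_of_nonneg hs.1]; exact hs.2
      have h1 := hu _ (hKS (hptK t ht s hs'))
      have h2 : HasDerivAt (fun s : ℝ => ((a + s, t + m t * s) : ℝ × ℝ)) ((1, m t) : ℝ × ℝ) s := by
        refine HasDerivAt.prodMk ((hasDerivAt_id s).const_add a) ?_
        simpa using ((hasDerivAt_id s).const_mul (m t)).const_add t
      have h3 := h1.comp_hasDerivAt s h2
      rw [hch t ht s hs'] at h3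
      have h4 := h3.sub ((hasDerivAt_id s).mul_const (B t))
      have h5 : lf (g (a, t)) (1, m t) - 1 * B t = 0 := by
        rw [lf_apply, hB]; ring
      rw [h5] at h4
      exact h4
    have hconst := constant_of_has_deriv_right_zero
      (f := fun s : ℝ => u (a + s, t + m t * s) - s * B t) (a := 0) (b := ρ)
      (fun s hs => (hder s hs).continuousAt.continuousWithinAt)
      (fun s hs => (hder s ⟨hs.1, hs.2.le⟩).hasDerivWithinAt) ρ ⟨hρ0.le, le_rfl⟩
    simp only [add_zero, mul_zero, zero_mul, sub_zero] at hconst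
    linarith
  have hBlip : ∀ t ∈ T, ∀ t' ∈ T, |B t - B t'| ≤ (6 * C / ρ) * |t - t'| := by
    intro t ht t' ht'
    have hmm := hmlip t ht t' ht'
    have h1 := hlip _ (hptK t' ht' ρ (by rw [abs_of_pos hρ0])) _
      (hptK t ht ρ (by rw [abs_of_pos hρ0]))
    have h2 := hlip _ (hKm 0 t' (by simp [hρ0.le]) (by have := hT t' ht'; linarith)) _
      (hKm 0 t (by simp [hρ0.le]) (by have := hT t ht; linarith))
    simp only [add_zero] at h2
    have h3 : ‖((a + ρ, t + m t * ρ) : ℝ × ℝ) - (a + ρ, t' + m t' * ρ)‖ ≤ 2 * |t - t'| := by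
      rw [Prod.mk_sub_mk, sub_self, Prod.norm_mk, norm_zero, max_le_iff]
      refine ⟨by positivity, ?_⟩
      rw [Real.norm_eq_abs]
      calc |t + m t * ρ - (t' + m t' * ρ)| = |(t - t') + (m t - m t') * ρ| := by ring_nf
        _ ≤ |t - t'| + |(m t - m t') * ρ| := abs_add_le _ _
        _ = |t - t'| + |m t - m t'| * ρ := by rw [abs_mul, abs_of_pos hρ0]
        _ ≤ 2 * |t - t'| := by linarith
    have h4 : ‖((a, t) : ℝ × ℝ) - (a, t')‖ ≤ |t - t'| := by
      rw [Prod.mk_sub_mk, sub_self, Prod.norm_mk, norm_zero, max_le_iff]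
      exact ⟨abs_nonneg _, le_rfl⟩
    have e1 := hBeq t ht
    have e2 := hBeq t' ht'
    have h5 : ρ * |B t - B t'| ≤ 6 * C * |t - t'| := by
      have : ρ * |B t - B t'| = |ρ * B t - ρ * B t'| := by
        rw [← mul_sub, abs_mul, abs_of_pos hρ0]
      rw [this, ← e1, ← e2]
      calc |u (a + ρ, t + m t * ρ) - u (a, t) - (u (a + ρ, t' + m t' * ρ) - u (a, t'))|
          = |(u (a + ρ, t + m t * ρ) - u (a + ρ, t' + m t' * ρ)) - (u (a, t) - u (a, t'))| := by
            ring_nf
        _ ≤ |u (a + ρ, t + m t * ρ) - u (a + ρ, t' + m t' * ρ)| + |u (a, t) - u (a, t')| :=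
            abs_sub _ _
        _ ≤ 2 * C * (2 * |t - t'|) + 2 * C * |t - t'| := by
            refine add_le_add (h1.trans ?_) (h2.trans ?_)
            · exact mul_le_mul_of_nonneg_left h3 (by positivity)
            · exact mul_le_mul_of_nonneg_left h4 (by positivity)
        _ = 6 * C * |t - t'| := by ring
    rw [div_mul_eq_mul_div, le_div_iff₀ hρ0]
    linarith
  -- the Lipschitz map
  set Ψ : ℝ × ℝ → ℝ × ℝ := fun z => (B z.1 - m z.1 * z.2, z.2) with hΨ
  set Γ : Set (ℝ × ℝ) := (fun t : ℝ => (t, (g (a, t)).2)) '' T with hΓ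
  have hq : ∀ t ∈ T, |(g (a, t)).2| ≤ C := by
    intro t ht
    have := hC (a + 0, t) (hKm 0 t (by simp [hρ0.le]) (by have := hT t ht; linarith))
    rw [add_zero] at this
    exact (norm_snd_le _).trans this
  have himg : (fun t : ℝ => g (a, t)) '' T = Ψ '' Γ := by
    rw [hΓ, image_image]
    refine image_congr fun t _ => ?_
    simp only [hΨ, hB]
    ext
    · simp
    · rfl
  have hΨlip : LipschitzOnWith (Real.toNNReal (7 * C / ρ + 1)) Ψ Γ := by
    refine LipschitzOnWith.of_dist_le_mul ?_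
    rintro _ ⟨t, ht, rfl⟩ _ ⟨t', ht', rfl⟩
    rw [Real.coe_toNNReal _ (by positivity)]
    set q := (g (a, t)).2
    set q' := (g (a, t')).2
    have hq1 := hq t ht
    have hmm : |m t - m t'| ≤ |t - t'| / ρ := by
      rw [le_div_iff₀ hρ0]; exact hmlip t ht t' ht'
    set dd := dist ((t, q) : ℝ × ℝ) (t', q') with hdd
    have hd1 : |t - t'| ≤ dd := by
      rw [hdd, Prod.dist_eq]; exact le_max_left _ _
    have hd2 : |q - q'| ≤ dd := by
      rw [hdd, Prod.dist_eq]; exact le_max_right _ _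
    have hdd0 : 0 ≤ dd := dist_nonneg
    simp only [hΨ]
    rw [Prod.dist_eq, max_le_iff]
    constructor
    · simp only [Real.dist_eq]
      have e : B t - m t * q - (B t' - m t' * q') =
        (B t - B t') - ((m t - m t') * q + m t' * (q - q')) := by ring
      rw [e]
      calc |(B t - B t') - ((m t - m t') * q + m t' * (q - q'))|
          ≤ |B t - B t'| + |(m t - m t') * q + m t' * (q - q')| := abs_sub _ _
        _ ≤ |B t - B t'| + (|(m t - m t') * q| + |m t' * (q - q')|) := by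
            gcongr; exact abs_add_le _ _
        _ = |B t - B t'| + (|m t - m t'| * |q| + |m t'| * |q - q'|) := by
            rw [abs_mul, abs_mul]
        _ ≤ (6 * C / ρ) * |t - t'| + ((|t - t'| / ρ) * C + 1 * |q - q'|) := by
            have := hBlip t ht t' ht'
            have := hm t' ht'
            gcongr
        _ ≤ (6 * C / ρ) * dd + ((dd / ρ) * C + 1 * dd) := by gcongr
        _ = (7 * C / ρ + 1) * dd := by ring
    · simp only [Real.dist_eq]
      calc |q - q'| ≤ dd := hd2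
        _ = 1 * dd := (one_mul _).symm
        _ ≤ (7 * C / ρ + 1) * dd := by
            gcongr
            have : 0 ≤ 7 * C / ρ := by positivity
            linarith
  -- the graph is null
  have hΓ0 : volume Γ = 0 := by
    set I : Set ℝ := Icc (b - R/2) (b + R/2) with hI
    have hcontq : ContinuousOn (fun t : ℝ => (g (a, t)).2) I := by
      have h1 : ContinuousOn (fun t : ℝ => g (a, t)) I := by
        refine hg.comp (by fun_prop) ?_
        intro t ht
        refine ⟨by simp [hR], abs_lt.2 ⟨by linarith [ht.1], by linarith [ht.2]⟩⟩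
      exact h1.snd
    set Γ' : Set (ℝ × ℝ) := {z | z.1 ∈ I ∧ z.2 = (g (a, z.1)).2} with hΓ'
    have hclosed : IsClosed Γ' := by
      have h1 : ContinuousOn (fun z : ℝ × ℝ => z.2 - (g (a, z.1)).2) (I ×ˢ univ) := by
        refine continuousOn_snd.sub ?_
        exact hcontq.comp continuousOn_fst (fun z hz => hz.1)
      have h2 := h1.preimage_isClosed_of_isClosed (isClosed_Icc.prod isClosed_univ)
        (isClosed_singleton (x := (0:ℝ)))
      have h3 : Γ' = (I ×ˢ univ) ∩ (fun z : ℝ × ℝ => z.2 - (g (a, z.1)).2) ⁻¹' {0} := by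
        ext z
        simp only [hΓ', mem_ofPred_eq, mem_inter_iff, mem_prod, mem_univ, and_true, mem_preimage,
          mem_singleton_iff, sub_eq_zero]
      rw [h3]; exact h2
    have hsub : Γ ⊆ Γ' := by
      rintro _ ⟨t, ht, rfl⟩
      have := abs_le.1 (hT t ht)
      exact ⟨⟨by simp only; linarith, by simp only; linarith⟩, rfl⟩
    refine measure_mono_null hsub ?_
    rw [Measure.volume_eq_prod, Measure.measure_prod_null hclosed.measurableSet]
    refine Eventually.of_forall fun x => ?_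
    have : Prod.mk x ⁻¹' Γ' ⊆ {(g (a, x)).2} := by
      rintro y ⟨-, hy⟩
      exact hy
    exact measure_mono_null this (measure_singleton _)
  rw [himg, ← hausdorffMeasure_prod_real]
  have h1 := hΨlip.hausdorffMeasure_image_le (d := 2) (by norm_num)
  rw [hausdorffMeasure_prod_real, hΓ0, mul_zero] at h1
  exact le_antisymm (by simpa [hausdorffMeasure_prod_real] using h1) zero_le

end Q193.Torse
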