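import Pool.Agent.Q193.Torse3

set_option autoImplicit false

open Set Filter Topology MeasureTheory

namespace Q193.Torse

/-- the values of `g` on a smaller square which are good and come from a non-steep chord -/
theorem half_core {u : ℝ × ℝ → ℝ} {g : ℝ × ℝ → ℝ × ℝ} {a b R : ℝ}
    (hR : 0 < R) (hu : ∀ z ∈ Sq a b R, HasFDerivAt u (lf (g z)) z)
    (hg : ContinuousOn g (Sq a b R)) (hT : Tor (Sq a b R) g) :
    volume {c | c ∉ Bad (Sq a b R) g ∧ ∃ x ∈ Sq a b (R/4), g x = c ∧ ∃ d : ℝ × ℝ, d ≠ 0 ∧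
      |d.2| ≤ |d.1| ∧ ∀ t ∈ Ioo (-1 : ℝ) 1, x + t • d ∈ Sq a b R ∧ g (x + t • d) = g x} = 0 := by
  set D := Sq a b R with hD
  set T : Set ℝ := {t | |t - b| ≤ R / 2 ∧ g (a, t) ∉ Bad D g ∧
    ∃ m : ℝ, |m| ≤ 1 ∧ ∀ s : ℝ, |s| ≤ R / 4 → g (a + s, t + m * s) = g (a, t)} with hTdef
  choose! m hm1 hm2 using (fun t (ht : t ∈ T) => ht.2.2)
  have hpt : ∀ t ∈ T, ∀ s : ℝ, |s| ≤ R / 4 → (a + s, t + m t * s) ∈ D := by
    intro t ht s hs
    have h2 : |m t * s| ≤ R / 4 := by
      rw [abs_mul]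
      calc |m t| * |s| ≤ 1 * (R / 4) := mul_le_mul (hm1 t ht) hs (abs_nonneg _) zero_le_one
        _ = R / 4 := one_mul _
    refine ⟨?_, ?_⟩
    · simp only [add_sub_cancel_left]; linarith
    · calc |t + m t * s - b| = |(t - b) + m t * s| := by ring_nf
        _ ≤ |t - b| + |m t * s| := abs_add_le _ _
        _ < R := by linarith [ht.1]
  have hnull := V_lemma (T := T) (m := m) hR hu hg (fun t ht => ht.1) hm1 hm2 (by
    intro t ht t' ht' s hs heq
    by_contra hne
    apply ht.2.1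
    set ε : ℝ := R / 4 - |s| with hε
    have hε0 : 0 < ε := by linarith
    have hbd : ∀ r : ℝ, |r| ≤ 1 → |s + r * ε| ≤ R / 4 := by
      intro r hr
      calc |s + r * ε| ≤ |s| + |r * ε| := abs_add_le _ _
        _ = |s| + |r| * ε := by rw [abs_mul, abs_of_pos hε0]
        _ ≤ |s| + 1 * ε := by gcongr
        _ = R / 4 := by rw [hε]; ring
    refine ⟨(a + s, t + m t * s), (ε, m t * ε), (ε, m t' * ε), ?_, ?_, ?_⟩
    · have : ε * (m t' * ε) - m t * ε * ε = ε * ε * (m t' - m t) := by ring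
      simp only
      rw [this]
      exact mul_ne_zero (mul_ne_zero hε0.ne' hε0.ne') (sub_ne_zero.2 (Ne.symm hne))
    · intro r hr
      have e : ((a + s, t + m t * s) : ℝ × ℝ) + r • (ε, m t * ε)
          = (a + (s + r * ε), t + m t * (s + r * ε)) := by
        ext
        · simp only [Prod.fst_add, Prod.smul_fst, smul_eq_mul]; ring
        · simp only [Prod.snd_add, Prod.smul_snd, smul_eq_mul]; ring
      rw [e]
      have hb := hbd r (abs_le.2 hr)
      exact ⟨hpt t ht _ hb, hm2 t ht _ hb⟩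
    · intro r hr
      have e : ((a + s, t + m t * s) : ℝ × ℝ) + r • (ε, m t' * ε)
          = (a + (s + r * ε), t' + m t' * (s + r * ε)) := by
        rw [heq]
        ext
        · simp only [Prod.fst_add, Prod.smul_fst, smul_eq_mul]; ring
        · simp only [Prod.snd_add, Prod.smul_snd, smul_eq_mul]; ring
      rw [e]
      have hb := hbd r (abs_le.2 ⟨by linarith [hr.1], hr.2⟩)
      refine ⟨hpt t' ht' _ hb, ?_⟩
      rw [hm2 t' ht' _ hb, ← hm2 t' ht' s hs.le, ← heq, hm2 t ht s hs.le])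
  refine measure_mono_null ?_ hnull
  rintro c ⟨hcB, x, hx, rfl, d, hd, hd12, hloc⟩
  have hd1 : d.1 ≠ 0 := by
    intro h
    rw [h, abs_zero] at hd12
    exact hd (Prod.ext h (abs_nonpos_iff.1 hd12))
  have hxD : x ∈ D := ⟨by linarith [hx.1], by linarith [hx.2]⟩
  set μ : ℝ := d.2 / d.1 with hμ
  have hμ1 : |μ| ≤ 1 := by
    rw [hμ, abs_div, div_le_one (abs_pos.2 hd1)]; exact hd12
  set t : ℝ := x.2 + μ * (a - x.1) with ht
  have hpoint : ∀ s : ℝ, ((a + s, t + μ * s) : ℝ × ℝ) = x + ((a + s - x.1) / d.1) • d := by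
    intro s
    ext
    · simp only [Prod.fst_add, Prod.smul_fst, smul_eq_mul]
      rw [div_mul_cancel₀ _ hd1]; ring
    · simp only [Prod.snd_add, Prod.smul_snd, smul_eq_mul, ht, hμ]
      field_simp
      ring
  have htb : |t - b| ≤ R / 2 := by
    have h1 : |μ * (a - x.1)| ≤ R / 4 := by
      rw [abs_mul]
      calc |μ| * |a - x.1| ≤ 1 * (R / 4) := by
            refine mul_le_mul hμ1 ?_ (abs_nonneg _) zero_le_one
            rw [abs_sub_comm]; exact hx.1.le
        _ = R / 4 := one_mul _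
    calc |t - b| = |(x.2 - b) + μ * (a - x.1)| := by rw [ht]; ring_nf
      _ ≤ |x.2 - b| + |μ * (a - x.1)| := abs_add_le _ _
      _ ≤ R / 2 := by linarith [hx.2.le]
  have hin : ∀ s : ℝ, |s| ≤ R / 4 → ((a + s, t + μ * s) : ℝ × ℝ) ∈ D := by
    intro s hs
    have h2 : |μ * s| ≤ R / 4 := by
      rw [abs_mul]
      calc |μ| * |s| ≤ 1 * (R / 4) := mul_le_mul hμ1 hs (abs_nonneg _) zero_le_one
        _ = R / 4 := one_mul _
    refine ⟨?_, ?_⟩
    · simp only [add_sub_cancel_left]; linarith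
    · calc |t + μ * s - b| = |(t - b) + μ * s| := by ring_nf
        _ ≤ |t - b| + |μ * s| := abs_add_le _ _
        _ < R := by linarith
  have hval : ∀ s : ℝ, |s| ≤ R / 4 → g (a + s, t + μ * s) = g x := by
    intro s hs
    have h1 := hin s hs
    rw [hpoint s] at h1 ⊢
    exact chord' (Sq_convex a b R) hg hT hxD hcB hd hloc h1
  have h0 : g (a, t) = g x := by
    have := hval 0 (by simp; positivity)
    simpa using this
  refine ⟨t, ⟨htb, by rw [h0]; exact hcB, μ, hμ1, ?_⟩, h0⟩
  intro s hs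
  rw [hval s hs, h0]

theorem lf_swap (c : ℝ × ℝ) : (lf c).comp (ContinuousLinearMap.snd ℝ ℝ ℝ |>.prod
    (ContinuousLinearMap.fst ℝ ℝ ℝ)) = lf c.swap := by
  ext <;> simp [lf_apply]

/-- **Planar core theorem.** If through every point of the open square there passes a segment along
which the (continuous) gradient `g` of `u` is constant, then the gradient image of the concentric
square of a quarter of the size is a Lebesgue null set. -/
theorem core {u : ℝ × ℝ → ℝ} {g : ℝ × ℝ → ℝ × ℝ} {a b R : ℝ}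
    (hR : 0 < R) (hu : ∀ z ∈ Sq a b R, HasFDerivAt u (lf (g z)) z)
    (hg : ContinuousOn g (Sq a b R)) (hT : Tor (Sq a b R) g) :
    volume (g '' Sq a b (R/4)) = 0 := by
  set D := Sq a b R with hD
  have h1 := half_core hR hu hg hT
  -- swapped problem
  set D' := Sq b a R with hD'
  have hsw : ∀ z : ℝ × ℝ, z ∈ D' ↔ z.swap ∈ D := by
    intro z
    exact ⟨fun h => ⟨h.2, h.1⟩, fun h => ⟨h.2, h.1⟩⟩
  set u' : ℝ × ℝ → ℝ := fun z => u z.swap with hu'
  set g' : ℝ × ℝ → ℝ × ℝ := fun z => (g z.swap).swap with hg'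
  have hud : ∀ z ∈ D', HasFDerivAt u' (lf (g' z)) z := by
    intro z hz
    have h2 := hu z.swap ((hsw z).1 hz)
    have h3 : HasFDerivAt (Prod.swap : ℝ × ℝ → ℝ × ℝ)
        (ContinuousLinearMap.snd ℝ ℝ ℝ |>.prod (ContinuousLinearMap.fst ℝ ℝ ℝ)) z :=
      hasFDerivAt_snd.prodMk hasFDerivAt_fst
    have h4 := h2.comp z h3
    rw [lf_swap] at h4
    exact h4
  have hgd : ContinuousOn g' D' := by
    refine continuous_swap.comp_continuousOn (hg.comp continuous_swap.continuousOn ?_)
    intro z hz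
    exact (hsw z).1 hz
  have hTd : Tor D' g' := by
    intro x hx
    obtain ⟨d, hd, hd'⟩ := hT x.swap ((hsw x).1 hx)
    refine ⟨d.swap, ?_, ?_⟩
    · intro h
      apply hd
      have := congrArg Prod.swap h
      simpa using this
    · intro t ht
      obtain ⟨h5, h6⟩ := hd' t ht
      have e : (x + t • d.swap).swap = x.swap + t • d := by
        ext <;> simp
      refine ⟨(hsw _).2 (by rw [e]; exact h5), ?_⟩
      simp only [hg']
      rw [e, h6]
  have h2 := half_core hR hud hgd hTd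
  have h2' := (Measure.measurePreserving_swap (μ := (volume : Measure ℝ))
    (ν := (volume : Measure ℝ))).quasiMeasurePreserving.preimage_null h2
  have h3 : volume (Bad D g) = 0 := (bad_countable D g).measure_zero _
  have h4 : volume (Bad D g ∪ ({c | c ∉ Bad D g ∧ ∃ x ∈ Sq a b (R/4), g x = c ∧ ∃ d : ℝ × ℝ, d ≠ 0 ∧
      |d.2| ≤ |d.1| ∧ ∀ t ∈ Ioo (-1 : ℝ) 1, x + t • d ∈ D ∧ g (x + t • d) = g x} ∪
      Prod.swap ⁻¹' {c | c ∉ Bad D' g' ∧ ∃ x ∈ Sq b a (R/4), g' x = c ∧ ∃ d : ℝ × ℝ, d ≠ 0 ∧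
      |d.2| ≤ |d.1| ∧ ∀ t ∈ Ioo (-1 : ℝ) 1, x + t • d ∈ D' ∧ g' (x + t • d) = g' x})) = 0 :=
    measure_union_null h3 (measure_union_null h1 h2')
  refine measure_mono_null ?_ h4
  rintro c ⟨x, hx, rfl⟩
  by_cases hc : g x ∈ Bad D g
  · exact Or.inl hc
  · right
    have hxD : x ∈ D := ⟨by linarith [hx.1], by linarith [hx.2]⟩
    obtain ⟨d, hd, hd'⟩ := hT x hxD
    rcases le_total |d.2| |d.1| with h | h
    · left
      exact ⟨hc, x, hx, rfl, d, hd, h, hd'⟩
    · right
      refine ⟨?_, x.swap, ⟨hx.2, hx.1⟩, ?_, d.swap, ?_, h, ?_⟩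
      · intro hb
        apply hc
        obtain ⟨o, v, w, hbs⟩ := hb
        refine ⟨o.swap, v.swap, w.swap, ?_, ?_, ?_⟩
        · intro h0
          apply hbs.indep
          simp only [Prod.fst_swap, Prod.snd_swap] at h0
          linarith
        · intro t ht
          have h5 := hbs.bar t ht
          have e : o.swap + t • v.swap = (o + t • v).swap := by ext <;> simp
          rw [e]
          refine ⟨(hsw _).1 h5.1, ?_⟩
          have := congrArg Prod.swap h5.2
          simpa [hg'] using this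
        · intro t ht
          have h5 := hbs.leg t ht
          have e : o.swap + t • w.swap = (o + t • w).swap := by ext <;> simp
          rw [e]
          refine ⟨(hsw _).1 h5.1, ?_⟩
          have := congrArg Prod.swap h5.2
          simpa [hg'] using this
      · simp [hg']
      · intro h0
        apply hd
        have := congrArg Prod.swap h0
        simpa using this
      · intro t ht
        obtain ⟨h5, h6⟩ := hd' t ht
        have e : x.swap + t • d.swap = (x + t • d).swap := by ext <;> simp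
        rw [e]
        refine ⟨(hsw _).2 (by simpa using h5), ?_⟩
        simp only [hg', Prod.swap_swap]
        rw [h6]

end Q193.Torse
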