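import Mathlib

set_option autoImplicit false

open Set MeasureTheory
open scoped Manifold ContDiff ENNReal NNReal

namespace Q193.Torse

section generic

variable (E : Type*) [NormedAddCommGroup E] [NormedSpace ℝ E]
  {F : Type*} [NormedAddCommGroup F] [NormedSpace ℝ F]
  {M : Type*} [TopologicalSpace M] [ChartedSpace E M]

/-- The range of the differential at `q` of a map `f` from a manifold `M` modelled on `E` to a
normed space `F`, as a linear subspace of `F`. -/
noncomputable def diffRange (f : M → F) (q : M) : Submodule ℝ F :=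
  let A : E →L[ℝ] F := mfderiv 𝓘(ℝ, E) 𝓘(ℝ, F) f q
  LinearMap.range (A : E →ₗ[ℝ] F)

/-- `f` is a `C¹` immersion of the manifold `M` modelled on `E` into the normed space `F`: it is
of class `C¹` and all its differentials are injective. -/
def IsC1Immersion (f : M → F) : Prop :=
  ContMDiff 𝓘(ℝ, E) 𝓘(ℝ, F) 1 f ∧ ∀ q, Function.Injective (mfderiv 𝓘(ℝ, E) 𝓘(ℝ, F) f q)

/-- The surface measure (on the unit sphere of `F`, induced by the Lebesgue measure of `F`) of the
part of `A` that lies on the unit sphere. -/
noncomputable def unitSphereArea [MeasureSpace F] (A : Set F) : ℝ≥0∞ :=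
  (volume : Measure F).toSphere ((fun x : Metric.sphere (0 : F) 1 => (x : F)) ⁻¹' A)

end generic

/-- Euclidean 3-space -/
abbrev E3 := EuclideanSpace ℝ (Fin 3)
/-- Euclidean plane -/
abbrev E2 := EuclideanSpace ℝ (Fin 2)

variable {M : Type*} [TopologicalSpace M] [ChartedSpace E2 M]

/-- The tangent plane (as a linear subspace of 3-space) of the parametrised surface `f` at the
point `q` of `M`: the range of the differential. -/
noncomputable def tangentPlane (f : M → E3) (q : M) : Submodule ℝ E3 := diffRange E2 f q

/-- `f` is a `C¹` immersion of the 2-manifold `M` into 3-space. -/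
def IsC1Surface (f : M → E3) : Prop := IsC1Immersion E2 f

/-- Through every point of the surface passes a straight segment contained in the surface along
which the tangent plane is constant. -/
def IsTorse (f : M → E3) : Prop :=
  ∀ p : M, ∃ (v : E3) (ε : ℝ) (γ : ℝ → M), v ≠ 0 ∧ 0 < ε ∧ ContinuousOn γ (Ioo (-ε) ε) ∧ γ 0 = p ∧
    ∀ t ∈ Ioo (-ε) ε, f (γ t) = f p + t • v ∧ tangentPlane f (γ t) = tangentPlane f p

/-- `n` is a continuous unit normal field of the surface `f` on the open piece `G`. -/
def IsUnitNormalOn (f : M → E3) (G : Set M) (n : M → E3) : Prop :=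
  ContinuousOn n G ∧ ∀ q ∈ G, ‖n q‖ = 1 ∧ ∀ w ∈ tangentPlane f q, inner ℝ (n q) w = 0

/-- Lebesgue (surface) measure of the part of `A` lying on the unit sphere of 3-space. -/
noncomputable def sphArea (A : Set E3) : ℝ≥0∞ := unitSphereArea A

/-- Bounded extrinsic curvature in the sense of Pogorelov: every point has a neighbourhood `G`
(small enough to carry a continuous unit normal `n`) and a finite constant `C` such that
`∑ area (n (H i)) ≤ C` for every finite family of pairwise disjoint closed subsets `H i` of `G`
(closed in the relative topology of `G`; this includes all closed sets of `M` contained in `G`). -/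
def IsBECP (f : M → E3) : Prop :=
  ∀ p : M, ∃ G : Set M, IsOpen G ∧ p ∈ G ∧ (∃ n : M → E3, IsUnitNormalOn f G n) ∧
    ∀ n : M → E3, IsUnitNormalOn f G n → ∃ C : ℝ≥0, ∀ (k : ℕ) (H : Fin k → Set M),
      (∀ i, ∃ K : Set M, IsClosed K ∧ H i = G ∩ K) → (∀ i j, i ≠ j → Disjoint (H i) (H j)) →
      ∑ i, sphArea (n '' H i) ≤ C

end Q193.Torse
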