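import Pool.Agent.Q193.Torse4
import Pool.Agent.Q193.TorseDefs

set_option autoImplicit false

open Set Filter Topology MeasureTheory
open scoped Manifold ContDiff

namespace Q193.Torse

variable {M : Type*} [TopologicalSpace M] [ChartedSpace E2 M]

theorem exists_straightening (A : E2 →L[ℝ] E3) (hA : Function.Injective A) :
    ∃ (L : E3 ≃L[ℝ] (ℝ × ℝ) × ℝ) (e : E2 ≃L[ℝ] ℝ × ℝ), ∀ w, L (A w) = (e w, 0) := by
  -- a linear equivalence `E2 ≃ ℝ × ℝ`
  have h2 : Module.finrank ℝ E2 = Module.finrank ℝ (ℝ × ℝ) := by simp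
  let e : E2 ≃L[ℝ] ℝ × ℝ := (LinearEquiv.ofFinrankEq _ _ h2).toContinuousLinearEquiv
  -- a normal vector
  have hlt : Module.finrank ℝ (LinearMap.range (A : E2 →ₗ[ℝ] E3)) < Module.finrank ℝ E3 := by
    have := LinearMap.finrank_range_le (A : E2 →ₗ[ℝ] E3)
    have h3 : Module.finrank ℝ E3 = 3 := by simp
    have h4 : Module.finrank ℝ E2 = 2 := by simp
    omega
  have hne : (LinearMap.range (A : E2 →ₗ[ℝ] E3))ᗮ ≠ ⊥ := by
    intro h
    have := Submodule.orthogonal_eq_bot_iff.1 h
    rw [this, finrank_top] at hlt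
    exact lt_irrefl _ hlt
  obtain ⟨ν, hν, hν0⟩ := Submodule.exists_mem_ne_zero_of_ne_bot hne
  let B : (ℝ × ℝ) × ℝ →ₗ[ℝ] E3 :=
    { toFun := fun z => A (e.symm z.1) + z.2 • ν
      map_add' := by
        intro x y
        simp only [Prod.fst_add, Prod.snd_add, map_add, add_smul]; abel
      map_smul' := by
        intro c x
        simp only [Prod.smul_fst, Prod.smul_snd, map_smul, smul_eq_mul, mul_smul, smul_add,
          RingHom.id_apply] }
  have hBinj : Function.Injective B := by
    rw [← LinearMap.ker_eq_bot, LinearMap.ker_eq_bot']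
    rintro ⟨x, s⟩ h
    have h' : A (e.symm x) + s • ν = 0 := h
    have h1 : inner ℝ (A (e.symm x)) ν = 0 := by
      have := (Submodule.mem_orthogonal _ _).1 hν (A (e.symm x)) ⟨e.symm x, rfl⟩
      exact this
    have h5 : s = 0 := by
      have h6 : inner ℝ (A (e.symm x) + s • ν) ν = 0 := by rw [h', inner_zero_left]
      rw [inner_add_left, h1, zero_add, inner_smul_left] at h6
      simpa [hν0] using h6
    have h8 : x = 0 := by
      rw [h5, zero_smul, add_zero] at h'
      have : e.symm x = 0 := hA (by rw [h', map_zero])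
      simpa using this
    rw [h5, h8]; rfl
  have h33 : Module.finrank ℝ ((ℝ × ℝ) × ℝ) = Module.finrank ℝ E3 := by simp
  let B' : ((ℝ × ℝ) × ℝ) ≃L[ℝ] E3 :=
    (LinearMap.linearEquivOfInjective B hBinj h33).toContinuousLinearEquiv
  refine ⟨B'.symm, e, fun w => ?_⟩
  rw [ContinuousLinearEquiv.symm_apply_eq]
  have : B (e w, 0) = A w := by
    change A (e.symm (e w)) + (0:ℝ) • ν = A w
    simp
  exact this.symm

end Q193.Torse
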