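import Pool.Agent.Q193.Torse5

set_option autoImplicit false

open Set Filter Topology MeasureTheory
open scoped Manifold ContDiff

namespace Q193.Torse

variable {M : Type*} [TopologicalSpace M] [ChartedSpace E2 M]

theorem mem_Sq_nhds {a b : ℝ} {s : Set (ℝ × ℝ)} (hs : s ∈ 𝓝 ((a, b) : ℝ × ℝ)) :
    ∃ R : ℝ, 0 < R ∧ Sq a b R ⊆ s := by
  obtain ⟨R, hR, hRs⟩ := Metric.mem_nhds_iff.1 hs
  refine ⟨R, hR, fun z hz => hRs ?_⟩
  rw [Metric.mem_ball, Prod.dist_eq, max_lt_iff, Real.dist_eq, Real.dist_eq]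
  exact hz

theorem lf_fderiv (A : ℝ × ℝ →L[ℝ] ℝ) : lf (A (1, 0), A (0, 1)) = A := by
  ext <;> simp [lf_apply]

theorem local_graph [IsManifold (𝓡 2) 1 M] {f : M → E3} (hf : IsC1Surface f) (p : M) :
    ∃ (L : E3 ≃L[ℝ] (ℝ × ℝ) × ℝ) (χ : OpenPartialHomeomorph M (ℝ × ℝ)) (u : ℝ × ℝ → ℝ)
      (g : ℝ × ℝ → ℝ × ℝ) (a b R : ℝ),
      0 < R ∧ p ∈ χ.source ∧ χ p = (a, b) ∧ Sq a b R ⊆ χ.target ∧
      (∀ q ∈ χ.source, (L (f q)).1 = χ q) ∧
      (∀ x ∈ Sq a b R, HasFDerivAt u (lf (g x)) x) ∧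
      ContinuousOn g (Sq a b R) ∧
      (∀ x ∈ Sq a b R, ∀ y : E3, y ∈ tangentPlane f (χ.symm x) ↔
        (L y).2 = lf (g x) (L y).1) := by
  set φ := chartAt E2 p with hφ
  set y0 : E2 := φ p with hy0
  set F : E2 → E3 := f ∘ φ.symm with hF
  have hps : p ∈ φ.source := mem_chart_source E2 p
  have hFd : ContDiffOn ℝ 1 F φ.target := by
    have h1 : ContMDiffOn (𝓡 2) (𝓡 2) 1 φ.symm φ.target := contMDiffOn_chart_symm
    have h2 := hf.1.comp_contMDiffOn h1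
    exact contMDiffOn_iff_contDiffOn.1 h2
  have hy0t : y0 ∈ φ.target := φ.map_source hps
  have hFy0 : ContDiffAt ℝ 1 F y0 := hFd.contDiffAt (φ.open_target.mem_nhds hy0t)
  obtain ⟨A, hAeq⟩ : ∃ A : E2 →L[ℝ] E3, A = mfderiv (𝓡 2) 𝓘(ℝ, E3) f p := ⟨_, rfl⟩
  have hAinj : Function.Injective A := by
    have := hf.2 p
    rw [← hAeq] at this
    exact this
  have hFA : HasFDerivAt F A y0 := by
    have h1 : MDifferentiableAt (𝓡 2) 𝓘(ℝ, E3) f p := hf.1.mdifferentiable (by norm_num) p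
    have h2 := h1.hasMFDerivAt.2
    rw [← hAeq] at h2
    simp only [writtenInExtChartAt, extChartAt, mfld_simps] at h2
    exact h2.hasFDerivAt_of_univ
  obtain ⟨L, e, hLe⟩ := exists_straightening A hAinj
  set K : E2 → ℝ × ℝ := fun y => (L (F y)).1 with hK
  have hKd : ContDiffAt ℝ 1 K y0 :=
    contDiff_fst.contDiffAt.comp y0 (L.contDiff.contDiffAt.comp y0 hFy0)
  have hKe : HasFDerivAt K (e : E2 →L[ℝ] ℝ × ℝ) y0 := by
    have h1 : HasFDerivAt K ((ContinuousLinearMap.fst ℝ (ℝ × ℝ) ℝ).comp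
        ((L : E3 →L[ℝ] (ℝ × ℝ) × ℝ).comp A)) y0 :=
      (ContinuousLinearMap.fst ℝ (ℝ × ℝ) ℝ).hasFDerivAt.comp y0 (L.hasFDerivAt.comp y0 hFA)
    have h2 : ((ContinuousLinearMap.fst ℝ (ℝ × ℝ) ℝ).comp
        ((L : E3 →L[ℝ] (ℝ × ℝ) × ℝ).comp A)) = (e : E2 →L[ℝ] ℝ × ℝ) := by
      ext w
      · simp [hLe]
      · simp [hLe]
    rw [← h2]; exact h1
  set Ψ := hKd.toOpenPartialHomeomorph K hKe one_ne_zero with hΨ
  have hΨc : ∀ y, Ψ y = K y := fun y => rfl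
  have hΨs : y0 ∈ Ψ.source := hKd.mem_toOpenPartialHomeomorph_source hKe one_ne_zero
  have hΨt : K y0 ∈ Ψ.target := Ψ.map_source hΨs
  have hinv : ContDiffAt ℝ 1 Ψ.symm (K y0) := by
    have := hKd.to_localInverse hKe one_ne_zero
    exact this
  set χ := φ.trans Ψ with hχ
  have hχs : p ∈ χ.source := by
    rw [hχ, OpenPartialHomeomorph.trans_source]
    exact ⟨hps, hΨs⟩
  have hχp : χ p = K y0 := rfl
  obtain ⟨a, b, hab⟩ : ∃ a b, K y0 = (a, b) := ⟨(K y0).1, (K y0).2, rfl⟩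
  have hset : {x | ContDiffAt ℝ 1 Ψ.symm x} ∩ χ.target ∈ 𝓝 ((a, b) : ℝ × ℝ) := by
    rw [← hab]
    refine inter_mem ?_ (χ.open_target.mem_nhds (by rw [← hχp]; exact χ.map_source hχs))
    exact hinv.eventually (by simp)
  obtain ⟨R, hR, hRs⟩ := mem_Sq_nhds hset
  set u : ℝ × ℝ → ℝ := fun x => (L (F (Ψ.symm x))).2 with hu
  have htgt : ∀ x ∈ Sq a b R, x ∈ Ψ.target ∧ Ψ.symm x ∈ φ.target := by
    intro x hx
    have := (hRs hx).2
    rw [hχ, OpenPartialHomeomorph.trans_target] at this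
    exact this
  have hFG : ∀ x ∈ Sq a b R, ContDiffAt ℝ 1 (fun x => F (Ψ.symm x)) x := by
    intro x hx
    obtain ⟨h1, h2⟩ := htgt x hx
    exact (hFd.contDiffAt (φ.open_target.mem_nhds h2)).comp x (hRs hx).1
  have hud : ∀ x ∈ Sq a b R, ContDiffAt ℝ 1 u x := fun x hx =>
    contDiff_snd.contDiffAt.comp x (L.contDiff.contDiffAt.comp x (hFG x hx))
  set g : ℝ × ℝ → ℝ × ℝ := fun x => (fderiv ℝ u x (1, 0), fderiv ℝ u x (0, 1)) with hg
  have hug : ∀ x ∈ Sq a b R, HasFDerivAt u (lf (g x)) x := by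
    intro x hx
    simp only [hg]
    rw [lf_fderiv]
    exact ((hud x hx).differentiableAt (by norm_num)).hasFDerivAt
  have hgc : ContinuousOn g (Sq a b R) := by
    have h1 : ContDiffOn ℝ 1 u (Sq a b R) := fun x hx => (hud x hx).contDiffWithinAt
    have h2 : ContinuousOn (fderiv ℝ u) (Sq a b R) :=
      h1.continuousOn_fderiv_of_isOpen (Sq_open a b R) (by norm_num)
    exact (h2.clm_apply continuousOn_const).prodMk (h2.clm_apply continuousOn_const)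
  have hLF : ∀ x ∈ Sq a b R, L (F (Ψ.symm x)) = (x, u x) := by
    intro x hx
    refine Prod.ext ?_ rfl
    exact Ψ.right_inv (htgt x hx).1
  refine ⟨L, χ, u, g, a, b, R, hR, hχs, by rw [hχp, hab], fun x hx => (hRs hx).2, ?_, hug, hgc, ?_⟩
  · intro q hq
    rw [hχ, OpenPartialHomeomorph.trans_source] at hq
    change (L (f q)).1 = (L (f (φ.symm (φ q)))).1
    rw [φ.left_inv hq.1]
  · intro x hx
    obtain ⟨h1, h2⟩ := htgt x hx
    set q := χ.symm x with hq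
    have hqφ : q = φ.symm (Ψ.symm x) := rfl
    -- derivative of the parametrisation
    set Bx : ℝ × ℝ →L[ℝ] E3 := (L.symm : (ℝ × ℝ) × ℝ →L[ℝ] E3).comp
      ((ContinuousLinearMap.id ℝ (ℝ × ℝ)).prod (lf (g x))) with hBx
    have hder : HasFDerivAt (fun x => F (Ψ.symm x)) Bx x := by
      have h3 : HasFDerivAt (fun x => L.symm (x, u x)) Bx x :=
        L.symm.hasFDerivAt.comp x ((hasFDerivAt_id x).prodMk (hug x hx))
      refine h3.congr_of_eventuallyEq ?_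
      filter_upwards [(Sq_open a b R).mem_nhds hx] with z hz
      rw [← hLF z hz, L.symm_apply_apply]
    obtain ⟨A', hA'⟩ : ∃ A' : E2 →L[ℝ] E3, A' = mfderiv (𝓡 2) 𝓘(ℝ, E3) f q := ⟨_, rfl⟩
    have hfq : HasMFDerivAt (𝓡 2) 𝓘(ℝ, E3) f q A' := by
      rw [hA']
      exact (hf.1.mdifferentiable (by norm_num) q).hasMFDerivAt
    have hsymm : MDifferentiableAt 𝓘(ℝ, ℝ × ℝ) (𝓡 2) (φ.symm ∘ Ψ.symm) x := by
      have h4 : MDifferentiableAt (𝓡 2) (𝓡 2) φ.symm (Ψ.symm x) :=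
        mdifferentiableAt_atlas_symm (chart_mem_atlas E2 p) h2
      have h5 : MDifferentiableAt 𝓘(ℝ, ℝ × ℝ) (𝓡 2) Ψ.symm x := by
        have h6 : ContDiffAt ℝ 1 Ψ.symm x := (hRs hx).1
        exact (h6.differentiableAt (by norm_num)).mdifferentiableAt
      exact h4.comp x h5
    obtain ⟨B', hB'⟩ : ∃ B' : ℝ × ℝ →L[ℝ] E2,
        HasMFDerivAt 𝓘(ℝ, ℝ × ℝ) (𝓡 2) (φ.symm ∘ Ψ.symm) x B' := ⟨_, hsymm.hasMFDerivAt⟩
    have hcomp : HasMFDerivAt 𝓘(ℝ, ℝ × ℝ) 𝓘(ℝ, E3) (f ∘ (φ.symm ∘ Ψ.symm)) x (A'.comp B') :=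
      HasMFDerivAt.comp x hfq hB'
    have heq : A'.comp B' = Bx := by
      have h6 : HasFDerivAt (f ∘ (φ.symm ∘ Ψ.symm)) (A'.comp B') x :=
        hasMFDerivAt_iff_hasFDerivAt.1 hcomp
      exact h6.unique hder
    have hle : LinearMap.range (Bx : ℝ × ℝ →ₗ[ℝ] E3) ≤ tangentPlane f q := by
      rintro _ ⟨w, rfl⟩
      refine ⟨B' w, ?_⟩
      rw [← heq]
      change (mfderiv (𝓡 2) 𝓘(ℝ, E3) f q) (B' w) = A' (B' w)
      rw [← hA']
      rfl
    have hBinj : Function.Injective (Bx : ℝ × ℝ →ₗ[ℝ] E3) := by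
      intro w w' hww
      have h7 : L.symm (w, lf (g x) w) = L.symm (w', lf (g x) w') := hww
      exact (Prod.ext_iff.1 (L.symm.injective h7)).1
    have hfr : Module.finrank ℝ (tangentPlane f q) ≤
        Module.finrank ℝ (LinearMap.range (Bx : ℝ × ℝ →ₗ[ℝ] E3)) := by
      rw [LinearMap.finrank_range_of_inj hBinj]
      have h8 : Module.finrank ℝ (ℝ × ℝ) = 2 := by simp
      have h9 : Module.finrank ℝ E2 = 2 := by simp
      rw [h8, ← h9]
      exact LinearMap.finrank_range_le _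
    have hEq := Submodule.eq_of_le_of_finrank_le hle hfr
    intro y
    rw [← hEq]
    constructor
    · rintro ⟨w, rfl⟩
      change (L (L.symm (w, lf (g x) w))).2 = lf (g x) (L (L.symm (w, lf (g x) w))).1
      rw [L.apply_symm_apply]
    · intro hy
      refine ⟨(L y).1, ?_⟩
      change L.symm ((L y).1, lf (g x) (L y).1) = y
      rw [← hy]
      exact L.symm_apply_apply y

end Q193.Torse
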