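import Pool.Agent.Q193.Torse6

set_option autoImplicit false

open Set Filter Topology MeasureTheory
open scoped Manifold ContDiff ENNReal NNReal Pointwise

namespace Q193.Torse

variable {M : Type*} [TopologicalSpace M] [ChartedSpace E2 M]

theorem tor_of_torse {f : M → E3} (ht : IsTorse f) {L : E3 ≃L[ℝ] (ℝ × ℝ) × ℝ}
    {χ : OpenPartialHomeomorph M (ℝ × ℝ)} {g : ℝ × ℝ → ℝ × ℝ} {a b R : ℝ}
    (hsub : Sq a b R ⊆ χ.target) (hχ : ∀ q ∈ χ.source, (L (f q)).1 = χ q)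
    (hplane : ∀ x ∈ Sq a b R, ∀ y : E3, y ∈ tangentPlane f (χ.symm x) ↔
        (L y).2 = lf (g x) (L y).1) : Tor (Sq a b R) g := by
  intro x hx
  set q := χ.symm x with hq
  have hqs : q ∈ χ.source := χ.map_target (hsub hx)
  have hχq : χ q = x := χ.right_inv (hsub hx)
  obtain ⟨v, ε, γ, hv, hε, hγ, hγ0, hγt⟩ := ht q
  set N : Set M := χ.source ∩ χ ⁻¹' (Sq a b R) with hN
  have hNo : IsOpen N := χ.isOpen_inter_preimage (Sq_open a b R)
  have hγc : ContinuousAt γ 0 := hγ.continuousAt (Ioo_mem_nhds (by linarith) hε)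
  have hev : ∀ᶠ t in 𝓝 (0:ℝ), γ t ∈ N :=
    hγc.eventually (by rw [hγ0]; exact hNo.mem_nhds ⟨hqs, by rw [mem_preimage, hχq]; exact hx⟩)
  obtain ⟨δ', hδ', hball⟩ := Metric.eventually_nhds_iff.1 hev
  set δ := min δ' ε with hδdef
  have hδ : 0 < δ := lt_min hδ' hε
  have hmem : ∀ t : ℝ, |t| < δ → γ t ∈ N ∧ t ∈ Ioo (-ε) ε := by
    intro t ht
    refine ⟨hball (by rw [Real.dist_eq, sub_zero]; exact ht.trans_le (min_le_left _ _)), ?_⟩
    exact abs_lt.1 (ht.trans_le (min_le_right _ _))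
  set w : ℝ × ℝ := (L v).1 with hw
  have hxt : ∀ t : ℝ, |t| < δ → χ (γ t) = x + t • w := by
    intro t ht
    obtain ⟨h1, h2⟩ := hmem t ht
    rw [← hχ _ h1.1, (hγt t h2).1, map_add, map_smul, Prod.fst_add, Prod.smul_fst, hχ q hqs, hχq]
  have hw0 : w ≠ 0 := by
    intro h0
    have ht2 : |δ / 2| < δ := by rw [abs_of_pos (by positivity)]; linarith
    obtain ⟨h1, h2⟩ := hmem _ ht2
    have h3 := hxt _ ht2
    rw [h0, smul_zero, add_zero] at h3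
    have h4 : γ (δ / 2) = q := by
      rw [← χ.left_inv h1.1, h3]
    have h5 := (hγt _ h2).1
    rw [h4] at h5
    have h6 : (δ / 2) • v = 0 := by
      have := h5.symm
      rwa [add_eq_left] at this
    rcases smul_eq_zero.1 h6 with h | h
    · linarith
    · exact hv h
  refine ⟨δ • w, smul_ne_zero hδ.ne' hw0, fun t ht => ?_⟩
  have htδ : |t * δ| < δ := by
    rw [abs_mul, abs_of_pos hδ]
    have : |t| < 1 := abs_lt.2 ht
    nlinarith
  obtain ⟨h1, h2⟩ := hmem _ htδ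
  have h3 := hxt _ htδ
  have h4 : x + t • δ • w ∈ Sq a b R := by
    rw [smul_smul, ← h3]; exact h1.2
  refine ⟨h4, ?_⟩
  have h5 : χ.symm (x + t • δ • w) = γ (t * δ) := by
    rw [smul_smul, ← h3, χ.left_inv h1.1]
  have h6 : ∀ z : ℝ × ℝ, lf (g (x + t • δ • w)) z = lf (g x) z := by
    intro z
    have h7 := hplane _ h4 (L.symm (z, lf (g x) z))
    have h8 := hplane _ hx (L.symm (z, lf (g x) z))
    rw [h5, (hγt _ h2).2] at h7
    rw [L.apply_symm_apply] at h7 h8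
    exact (h7.1 (h8.2 rfl)).symm
  have h9 := h6 (1, 0)
  have h10 := h6 (0, 1)
  simp only [lf_apply, mul_one, mul_zero, add_zero, zero_add] at h9 h10
  exact Prod.ext h9 h10

theorem exists_normal_vectors (L : E3 ≃L[ℝ] (ℝ × ℝ) × ℝ) : ∃ η π₁ π₂ : E3, ∀ y : E3,
    inner ℝ η y = (L y).2 ∧ inner ℝ π₁ y = (L y).1.1 ∧ inner ℝ π₂ y = (L y).1.2 := by
  have key : ∀ φ : E3 →L[ℝ] ℝ, ∃ η : E3, ∀ y, inner ℝ η y = φ y := fun φ =>
    ⟨(InnerProductSpace.toDual ℝ E3).symm φ, fun y => by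
      rw [InnerProductSpace.toDual_symm_apply]⟩
  obtain ⟨η, hη⟩ := key ((ContinuousLinearMap.snd ℝ (ℝ × ℝ) ℝ).comp (L : E3 →L[ℝ] (ℝ × ℝ) × ℝ))
  obtain ⟨π₁, hπ₁⟩ := key ((ContinuousLinearMap.fst ℝ ℝ ℝ).comp
    ((ContinuousLinearMap.fst ℝ (ℝ × ℝ) ℝ).comp (L : E3 →L[ℝ] (ℝ × ℝ) × ℝ)))
  obtain ⟨π₂, hπ₂⟩ := key ((ContinuousLinearMap.snd ℝ ℝ ℝ).comp
    ((ContinuousLinearMap.fst ℝ (ℝ × ℝ) ℝ).comp (L : E3 →L[ℝ] (ℝ × ℝ) × ℝ)))
  exact ⟨η, π₁, π₂, fun y => ⟨hη y, hπ₁ y, hπ₂ y⟩⟩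

/-- the (unnormalised) normal vector attached to the gradient value `c` -/
noncomputable def nv (η π₁ π₂ : E3) (c : ℝ × ℝ) : E3 := η - c.1 • π₁ - c.2 • π₂

theorem inner_nv {L : E3 ≃L[ℝ] (ℝ × ℝ) × ℝ} {η π₁ π₂ : E3}
    (h : ∀ y : E3, inner ℝ η y = (L y).2 ∧ inner ℝ π₁ y = (L y).1.1 ∧ inner ℝ π₂ y = (L y).1.2)
    (c : ℝ × ℝ) (y : E3) : inner ℝ (nv η π₁ π₂ c) y = (L y).2 - lf c (L y).1 := by
  obtain ⟨h1, h2, h3⟩ := h y
  rw [nv, inner_sub_left, inner_sub_left, inner_smul_left, inner_smul_left, h1, h2, h3, lf_apply]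
  simp
  ring

theorem nv_ne_zero {L : E3 ≃L[ℝ] (ℝ × ℝ) × ℝ} {η π₁ π₂ : E3}
    (h : ∀ y : E3, inner ℝ η y = (L y).2 ∧ inner ℝ π₁ y = (L y).1.1 ∧ inner ℝ π₂ y = (L y).1.2)
    (c : ℝ × ℝ) : nv η π₁ π₂ c ≠ 0 := by
  intro h0
  have := inner_nv h c (L.symm (0, 1))
  rw [h0, inner_zero_left, L.apply_symm_apply] at this
  simp at this

theorem continuous_nv (η π₁ π₂ : E3) : Continuous (nv η π₁ π₂) := by
  unfold nv; fun_prop

theorem normal_form {L : E3 ≃L[ℝ] (ℝ × ℝ) × ℝ} {η π₁ π₂ : E3}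
    (h : ∀ y : E3, inner ℝ η y = (L y).2 ∧ inner ℝ π₁ y = (L y).1.1 ∧ inner ℝ π₂ y = (L y).1.2)
    (c : ℝ × ℝ) {n : E3} (hn : ∀ y : E3, (L y).2 = lf c (L y).1 → inner ℝ n y = 0) :
    ∃ s : ℝ, n = s • nv η π₁ π₂ c := by
  set N := nv η π₁ π₂ c with hN
  have hN0 : N ≠ 0 := nv_ne_zero h c
  have hNN : inner ℝ N N ≠ 0 := by rw [Ne, inner_self_eq_zero]; exact hN0
  set s : ℝ := inner ℝ N n / inner ℝ N N with hs
  refine ⟨s, ?_⟩
  set y := n - s • N with hy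
  have h1 : inner ℝ N y = 0 := by
    rw [hy, inner_sub_right, inner_smul_right, hs, div_mul_cancel₀ _ hNN, sub_self]
  have h2 : (L y).2 = lf c (L y).1 := by
    have := inner_nv h c y
    rw [← hN, h1] at this
    linarith
  have h3 := hn y h2
  have h4 : inner ℝ y y = 0 := by
    have : inner ℝ (n - s • N) y = 0 := by
      rw [inner_sub_left, inner_smul_left, h3, h1]; simp
    exact this
  have h5 : y = 0 := inner_self_eq_zero.1 h4
  rw [hy, sub_eq_zero] at h5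
  exact h5

/-- preimages of null sets under linear isomorphisms are null -/
theorem preimage_null (L : E3 ≃L[ℝ] (ℝ × ℝ) × ℝ) {S : Set ((ℝ × ℝ) × ℝ)}
    (hS : volume S = 0) : volume (L ⁻¹' S) = 0 := by
  have h1 : (Measure.map L (volume : Measure E3)).IsAddHaarMeasure :=
    L.isAddHaarMeasure_map volume
  have h3 : (volume : Measure (ℝ × ℝ)).IsAddHaarMeasure :=
    inferInstanceAs ((volume : Measure ℝ).prod (volume : Measure ℝ)).IsAddHaarMeasure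
  have h4 : (volume : Measure ((ℝ × ℝ) × ℝ)).IsAddHaarMeasure :=
    inferInstanceAs ((volume : Measure (ℝ × ℝ)).prod (volume : Measure ℝ)).IsAddHaarMeasure
  have h2 : Measure.map L (volume : Measure E3) S = 0 :=
    (Measure.absolutelyContinuous_isAddHaarMeasure (Measure.map L (volume : Measure E3))
      (volume : Measure ((ℝ × ℝ) × ℝ))) hS
  have hme : MeasurableEmbedding L := L.toHomeomorph.measurableEmbedding
  rwa [hme.map_apply] at h2

end Q193.Torse
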