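import Pool.Agent.Q193.Torse7

set_option autoImplicit false

open Set Filter Topology MeasureTheory
open scoped Manifold ContDiff ENNReal NNReal Pointwise

namespace Q193.Torse

variable {M : Type*} [TopologicalSpace M] [ChartedSpace E2 M]

/-- The unit vectors normal to planes with gradient value in a compact null set have area zero. -/
theorem sphArea_null {L : E3 ≃L[ℝ] (ℝ × ℝ) × ℝ} {η π₁ π₂ : E3}
    (h : ∀ y : E3, inner ℝ η y = (L y).2 ∧ inner ℝ π₁ y = (L y).1.1 ∧ inner ℝ π₂ y = (L y).1.2)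
    {C : Set (ℝ × ℝ)} (hC : IsCompact C) (hC0 : volume C = 0) {A : Set E3}
    (hA : ∀ y ∈ A, ‖y‖ = 1 ∧ ∃ c ∈ C, ∃ s : ℝ, y = s • nv η π₁ π₂ c) : sphArea A = 0 := by
  set ν : ℝ × ℝ → E3 := fun c => ‖nv η π₁ π₂ c‖⁻¹ • nv η π₁ π₂ c with hν
  have hνc : Continuous ν := by
    have h1 := continuous_nv η π₁ π₂
    refine (h1.norm.inv₀ fun c => ?_).smul h1
    exact norm_ne_zero_iff.2 (nv_ne_zero h c)
  set W : Set E3 := ν '' C ∪ (fun c => -ν c) '' C with hW
  have hWc : IsCompact W := (hC.image hνc).union (hC.image hνc.neg)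
  have hAW : A ⊆ W := by
    intro y hy
    obtain ⟨h1, c, hc, s, hs⟩ := hA y hy
    have hN := nv_ne_zero h c
    have hN' : ‖nv η π₁ π₂ c‖ ≠ 0 := norm_ne_zero_iff.2 hN
    have h2 : |s| * ‖nv η π₁ π₂ c‖ = 1 := by
      rw [hs, norm_smul, Real.norm_eq_abs] at h1; exact h1
    have h3 : |s| = ‖nv η π₁ π₂ c‖⁻¹ := eq_inv_of_mul_eq_one_left h2
    rcases abs_choice s with h4 | h4
    · left
      refine ⟨c, hc, ?_⟩
      simp only [hν]
      rw [← h3, h4, hs]
    · right
      refine ⟨c, hc, ?_⟩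
      simp only [hν]
      rw [← h3, h4, hs, neg_smul, neg_neg]
  have hWm : MeasurableSet ((fun x : Metric.sphere (0 : E3) 1 => (x : E3)) ⁻¹' W) :=
    (hWc.isClosed.preimage continuous_subtype_val).measurableSet
  have hle : sphArea A ≤ (volume : Measure E3).toSphere
      ((fun x : Metric.sphere (0 : E3) 1 => (x : E3)) ⁻¹' W) :=
    measure_mono (preimage_mono hAW)
  -- the cone over W is null
  set Θ : E3 → E3 := fun z => (L z).2 • nv η π₁ π₂ (L z).1 with hΘ
  have hΘd : Differentiable ℝ Θ := by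
    have h1 : Differentiable ℝ (fun z => L z) := L.differentiable
    simp only [hΘ, nv]
    fun_prop
  set S : Set E3 := L ⁻¹' (C ×ˢ univ) with hS
  have hS0 : volume S = 0 := by
    apply preimage_null
    rw [Measure.volume_eq_prod, Measure.prod_prod, hC0, zero_mul]
  have hΘS : volume (Θ '' S) = 0 :=
    addHaar_image_eq_zero_of_differentiableOn_of_addHaar_eq_zero volume
      hΘd.differentiableOn hS0
  have hcone : Ioo (0:ℝ) 1 • ((fun x : Metric.sphere (0 : E3) 1 => (x : E3)) ''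
      ((fun x : Metric.sphere (0 : E3) 1 => (x : E3)) ⁻¹' W)) ⊆ Θ '' S := by
    rintro _ ⟨r, -, _, ⟨x, hx, rfl⟩, rfl⟩
    rcases hx with ⟨c, hc, hcx⟩ | ⟨c, hc, hcx⟩
    · refine ⟨L.symm (c, r * ‖nv η π₁ π₂ c‖⁻¹), ?_, ?_⟩
      · rw [hS, mem_preimage, L.apply_symm_apply]
        exact ⟨hc, mem_univ _⟩
      · have hcx' : ν c = (x : E3) := hcx
        change (L (L.symm (c, r * ‖nv η π₁ π₂ c‖⁻¹))).2 •
          nv η π₁ π₂ (L (L.symm (c, r * ‖nv η π₁ π₂ c‖⁻¹))).1 = r • (x : E3)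
        rw [L.apply_symm_apply, ← hcx']
        simp only [hν, smul_smul]
    · refine ⟨L.symm (c, -(r * ‖nv η π₁ π₂ c‖⁻¹)), ?_, ?_⟩
      · rw [hS, mem_preimage, L.apply_symm_apply]
        exact ⟨hc, mem_univ _⟩
      · have hcx' : -ν c = (x : E3) := hcx
        change (L (L.symm (c, -(r * ‖nv η π₁ π₂ c‖⁻¹)))).2 •
          nv η π₁ π₂ (L (L.symm (c, -(r * ‖nv η π₁ π₂ c‖⁻¹)))).1 = r • (x : E3)
        rw [L.apply_symm_apply, ← hcx']
        simp only [hν, smul_neg, smul_smul, neg_smul]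
  have hz : (volume : Measure E3).toSphere
      ((fun x : Metric.sphere (0 : E3) 1 => (x : E3)) ⁻¹' W) = 0 := by
    rw [Measure.toSphere_apply' _ hWm, measure_mono_null hcone hΘS, mul_zero]
  rw [hz] at hle
  exact le_antisymm hle zero_le

/-- **Main theorem (strong form).** Every point of a `C¹` torse has a neighbourhood which carries
a continuous unit normal field and whose spherical image (under any unit normal field) has
area zero. -/
theorem torse_null [IsManifold (𝓡 2) 1 M] {f : M → E3} (hf : IsC1Surface f) (ht : IsTorse f)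
    (p : M) : ∃ G : Set M, IsOpen G ∧ p ∈ G ∧ (∃ n : M → E3, IsUnitNormalOn f G n) ∧
      ∀ n : M → E3, (∀ q ∈ G, ‖n q‖ = 1 ∧ ∀ w ∈ tangentPlane f q, inner ℝ (n q) w = 0) →
        sphArea (n '' G) = 0 := by
  obtain ⟨L, χ, u, g, a, b, R, hR, hps, hχp, hsub, hχ, hu, hg, hplane⟩ := local_graph hf p
  have hTor := tor_of_torse ht hsub hχ hplane
  have hcore := core hR hu hg hTor
  obtain ⟨η, π₁, π₂, hη⟩ := exists_normal_vectors L
  have hmono : Sq a b (R / 8) ⊆ Sq a b R := fun z hz =>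
    ⟨by linarith [hz.1], by linarith [hz.2]⟩
  set G : Set M := χ.source ∩ χ ⁻¹' (Sq a b (R / 8)) with hG
  have hGo : IsOpen G := χ.isOpen_inter_preimage (Sq_open _ _ _)
  have hpG : p ∈ G := by
    refine ⟨hps, ?_⟩
    rw [mem_preimage, hχp]
    exact ⟨by simp [hR], by simp [hR]⟩
  have hGS : ∀ q ∈ G, χ q ∈ Sq a b R := fun q hq => hmono hq.2
  have htp : ∀ q ∈ G, ∀ y : E3, y ∈ tangentPlane f q ↔ (L y).2 = lf (g (χ q)) (L y).1 := by
    intro q hq y
    have := hplane (χ q) (hGS q hq) y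
    rwa [χ.left_inv hq.1] at this
  refine ⟨G, hGo, hpG, ?_, ?_⟩
  · refine ⟨fun q => ‖nv η π₁ π₂ (g (χ q))‖⁻¹ • nv η π₁ π₂ (g (χ q)), ?_, ?_⟩
    · have h1 : ContinuousOn (fun q => g (χ q)) G :=
        hg.comp (χ.continuousOn.mono inter_subset_left) hGS
      have h2 : ContinuousOn (fun q => nv η π₁ π₂ (g (χ q))) G :=
        (continuous_nv η π₁ π₂).comp_continuousOn h1
      refine (h2.norm.inv₀ fun q _ => ?_).smul h2
      exact norm_ne_zero_iff.2 (nv_ne_zero hη _)
    · intro q hq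
      have hN' : ‖nv η π₁ π₂ (g (χ q))‖ ≠ 0 := norm_ne_zero_iff.2 (nv_ne_zero hη _)
      refine ⟨?_, ?_⟩
      · rw [norm_smul, norm_inv, norm_norm, inv_mul_cancel₀ hN']
      · intro w hw
        rw [inner_smul_left, inner_nv hη, (htp q hq w).1 hw, sub_self, mul_zero]
  · intro n hn
    set D : Set (ℝ × ℝ) := Icc (a - R/8) (a + R/8) ×ˢ Icc (b - R/8) (b + R/8) with hD
    have hDc : IsCompact D := isCompact_Icc.prod isCompact_Icc
    have hDS : D ⊆ Sq a b (R/4) := by
      rintro z ⟨⟨h1, h2⟩, h3, h4⟩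
      refine ⟨abs_lt.2 ⟨by linarith, by linarith⟩, abs_lt.2 ⟨by linarith, by linarith⟩⟩
    have hDR : D ⊆ Sq a b R := fun z hz =>
      ⟨by linarith [(hDS hz).1], by linarith [(hDS hz).2]⟩
    have hgD : IsCompact (g '' D) := hDc.image_of_continuousOn (hg.mono hDR)
    have hgD0 : volume (g '' D) = 0 := measure_mono_null (image_mono hDS) hcore
    refine sphArea_null hη hgD hgD0 ?_
    rintro _ ⟨q, hq, rfl⟩
    obtain ⟨h1, h2⟩ := hn q hq
    refine ⟨h1, g (χ q), ⟨χ q, ?_, rfl⟩, ?_⟩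
    · have h3 := abs_lt.1 hq.2.1
      have h4 := abs_lt.1 hq.2.2
      exact ⟨⟨by linarith, by linarith⟩, ⟨by linarith, by linarith⟩⟩
    · refine normal_form hη _ fun y hy => ?_
      exact h2 y ((htp q hq y).2 hy)

/-- Every `C¹` torse is of class BECP. -/
theorem torse_becp [IsManifold (𝓡 2) 1 M] {f : M → E3} (hf : IsC1Surface f) (ht : IsTorse f) :
    IsBECP f := by
  intro p
  obtain ⟨G, hGo, hpG, hex, hnull⟩ := torse_null hf ht p
  refine ⟨G, hGo, hpG, hex, fun n hn => ⟨0, fun k H hH _ => ?_⟩⟩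
  have h0 := hnull n hn.2
  have : ∑ i, sphArea (n '' H i) = 0 := by
    refine Finset.sum_eq_zero fun i _ => ?_
    obtain ⟨K, -, hK⟩ := hH i
    refine le_antisymm ?_ zero_le
    rw [← h0]
    refine measure_mono (preimage_mono (image_mono ?_))
    rw [hK]; exact inter_subset_left
  rw [this]
  simp

end Q193.Torse
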